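import Mathlib.Algebra.Polynomial.Laurent
import Mathlib.Tactic

/-!
# Vectors of norm one in the Hambleton-Teichner form

`energy y` is the sum of the squares of the coefficients of a Laurent polynomial, which is the
constant coefficient of `invert y * y`.
-/

set_option autoImplicit false

namespace Pool.Agent.Q125.HT

open LaurentPolynomial

abbrev LZ := LaurentPolynomial ℤ

/-- Sum of squares of coefficients. -/
noncomputable def energy (y : LZ) : ℤ := y.coeff.sum fun _ c => c * c

theorem energy_eq (y : LZ) : (invert y * y).coeff 0 = energy y := by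
  rw [AddMonoidAlgebra.coeff_mul_apply_right]
  unfold energy
  apply Finsupp.sum_congr
  intro h _
  simp

theorem energy_eq_sum (y : LZ) (s : Finset ℤ) (hs : y.coeff.support ⊆ s) :
    energy y = ∑ k ∈ s, y.coeff k * y.coeff k := by
  unfold energy
  rw [Finsupp.sum]
  apply Finset.sum_subset hs
  intro k _ hk
  rw [Finsupp.notMem_support_iff] at hk
  rw [hk]; rfl

/-- four Laurent polynomials with coefficientwise the same parity have total energy divisible
by four -/
theorem energy_four (y : Fin 4 → LZ)
    (h : ∀ k : ℤ, ∀ i, Even ((y i).coeff k - (y 0).coeff k)) :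
    4 ∣ ∑ i, energy (y i) := by
  classical
  set s : Finset ℤ := Finset.univ.biUnion fun i => (y i).coeff.support with hs
  have h1 : ∀ i, energy (y i) = ∑ k ∈ s, (y i).coeff k * (y i).coeff k := by
    intro i
    apply energy_eq_sum
    intro k hk
    rw [hs, Finset.mem_biUnion]
    exact ⟨i, Finset.mem_univ i, hk⟩
  simp_rw [h1]
  rw [Finset.sum_comm]
  apply Finset.dvd_sum
  intro k _
  have h0 := h k 0
  obtain ⟨a1, h1⟩ := h k 1
  obtain ⟨a2, h2⟩ := h k 2
  obtain ⟨a3, h3⟩ := h k 3
  have e1 : (y 1).coeff k = (y 0).coeff k + 2 * a1 := by linarith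
  have e2 : (y 2).coeff k = (y 0).coeff k + 2 * a2 := by linarith
  have e3 : (y 3).coeff k = (y 0).coeff k + 2 * a3 := by linarith
  rw [Fin.sum_univ_four, e1, e2, e3]
  refine ⟨(y 0).coeff k ^ 2 + a1 * (y 0).coeff k + a2 * (y 0).coeff k + a3 * (y 0).coeff k
    + a1 ^ 2 + a2 ^ 2 + a3 ^ 2, ?_⟩
  ring

/-- two different odd coefficients -/
theorem energy_two (y y' : LZ) (k l : ℤ) (hkl : k ≠ l) (hk : Odd ((y + y').coeff k))
    (hl : Odd ((y + y').coeff l)) : 2 ≤ energy y + energy y' := by
  classical
  set s : Finset ℤ := y.coeff.support ∪ y'.coeff.support ∪ {k, l} with hs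
  rw [energy_eq_sum y s (by intro a ha; simp only [hs, Finset.mem_union]; left; left; exact ha),
    energy_eq_sum y' s (by intro a ha; simp only [hs, Finset.mem_union]; left; right; exact ha),
    ← Finset.sum_add_distrib]
  have hsub : ({k, l} : Finset ℤ) ⊆ s := by
    intro a ha
    simp only [hs, Finset.mem_union]
    right; exact ha
  have key : ∀ m : ℤ, Odd ((y + y').coeff m) →
      1 ≤ y.coeff m * y.coeff m + y'.coeff m * y'.coeff m := by
    intro m hm
    by_contra hlt
    push Not at hlt
    have h1 := mul_self_nonneg (y.coeff m)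
    have h2 := mul_self_nonneg (y'.coeff m)
    have h3 : y.coeff m * y.coeff m = 0 := by omega
    have h4 : y'.coeff m * y'.coeff m = 0 := by omega
    have h5 := mul_self_eq_zero.mp h3
    have h6 := mul_self_eq_zero.mp h4
    rw [AddMonoidAlgebra.coeff_add, Finsupp.add_apply, h5, h6] at hm
    simp at hm
  calc (2 : ℤ) ≤ ∑ m ∈ ({k, l} : Finset ℤ), (y.coeff m * y.coeff m + y'.coeff m * y'.coeff m) := by
        rw [Finset.sum_pair hkl]
        have := key k hk
        have := key l hl
        omega
    _ ≤ _ := by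
        apply Finset.sum_le_sum_of_subset_of_nonneg hsub
        intro m _ _
        have h1 := mul_self_nonneg (y.coeff m)
        have h2 := mul_self_nonneg (y'.coeff m)
        omega

theorem coeff_T_mul (n : ℤ) (u : LZ) (k : ℤ) : (T n * u).coeff k = u.coeff (k - n) := by
  unfold T
  rw [AddMonoidAlgebra.coeff_single_mul_apply, one_mul]
  congr 1
  ring

/-- if `u` has an odd coefficient, then `(T + T⁻¹) u` has two odd coefficients -/
theorem two_odd (u : LZ) (hu : ∃ k, Odd (u.coeff k)) :
    ∃ k l : ℤ, k ≠ l ∧ Odd (((T 1 + T (-1)) * u).coeff k) ∧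
      Odd (((T 1 + T (-1)) * u).coeff l) := by
  classical
  set s : Finset ℤ := u.coeff.support.filter fun k => Odd (u.coeff k) with hs
  have hne : s.Nonempty := by
    obtain ⟨k, hk⟩ := hu
    refine ⟨k, ?_⟩
    rw [hs, Finset.mem_filter]
    refine ⟨?_, hk⟩
    rw [Finsupp.mem_support_iff]
    intro h0
    rw [h0] at hk
    simp at hk
  have hmem : ∀ k, k ∈ s ↔ Odd (u.coeff k) := by
    intro k
    rw [hs, Finset.mem_filter]
    constructor
    · exact fun h => h.2
    · intro hk
      refine ⟨?_, hk⟩
      rw [Finsupp.mem_support_iff]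
      intro h0
      rw [h0] at hk
      simp at hk
  have hform : ∀ k, ((T 1 + T (-1)) * u).coeff k = u.coeff (k - 1) + u.coeff (k + 1) := by
    intro k
    rw [add_mul, AddMonoidAlgebra.coeff_add, Finsupp.add_apply, coeff_T_mul, coeff_T_mul]
    congr 2
  refine ⟨s.max' hne + 1, s.min' hne - 1, ?_, ?_, ?_⟩
  · have := s.min'_le _ (s.max'_mem hne)
    omega
  · rw [hform]
    have h1 : Odd (u.coeff (s.max' hne + 1 - 1)) := by
      have := (hmem _).1 (s.max'_mem hne)
      rwa [show s.max' hne + 1 - 1 = s.max' hne by ring]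
    have h2 : Even (u.coeff (s.max' hne + 1 + 1)) := by
      rw [← Int.not_odd_iff_even]
      intro h
      have := s.le_max' _ ((hmem _).2 h)
      omega
    exact h1.add_even h2
  · rw [hform]
    have h1 : Odd (u.coeff (s.min' hne - 1 + 1)) := by
      have := (hmem _).1 (s.min'_mem hne)
      rwa [show s.min' hne - 1 + 1 = s.min' hne by ring]
    have h2 : Even (u.coeff (s.min' hne - 1 - 1)) := by
      rw [← Int.not_odd_iff_even]
      intro h
      have := s.min'_le _ ((hmem _).2 h)
      omega
    exact h2.add_odd h1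

/-- The four polynomials are the coordinates of a vector of the form (times `√2`). -/
theorem no_energy_two (w1 w2 w3 w4 : LZ) :
    energy w1 + energy w2 + energy ((1 + (T 1 + T (-1))) * w1 + (T 1 + T (-1)) * w2 + 2 * w3)
      + energy ((T 1 + T (-1)) * w1 + (1 + (T 1 + T (-1))) * w2 + 2 * w4) ≠ 2 := by
  set x : LZ := T 1 + T (-1) with hx
  set y3 : LZ := (1 + x) * w1 + x * w2 + 2 * w3 with hy3
  set y4 : LZ := x * w1 + (1 + x) * w2 + 2 * w4 with hy4
  have h13 : w1 + y3 = x * (w1 + w2) + 2 * (w1 + w3) := by rw [hy3]; ring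
  have h24 : w2 + y4 = x * (w1 + w2) + 2 * (w2 + w4) := by rw [hy4]; ring
  have hcoeff2 : ∀ (v : LZ) (k : ℤ), (2 * v).coeff k = 2 * v.coeff k := by
    intro v k
    rw [two_mul, AddMonoidAlgebra.coeff_add, Finsupp.add_apply, two_mul]
  by_cases hu : ∃ k, Odd ((w1 + w2).coeff k)
  · obtain ⟨k, l, hkl, hk, hl⟩ := two_odd (w1 + w2) hu
    rw [← hx] at hk hl
    have a1 : ∀ m, Odd ((x * (w1 + w2)).coeff m) → Odd ((w1 + y3).coeff m) := by
      intro m hm
      rw [h13, AddMonoidAlgebra.coeff_add, Finsupp.add_apply, hcoeff2]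
      exact hm.add_even (even_two_mul _)
    have a2 : ∀ m, Odd ((x * (w1 + w2)).coeff m) → Odd ((w2 + y4).coeff m) := by
      intro m hm
      rw [h24, AddMonoidAlgebra.coeff_add, Finsupp.add_apply, hcoeff2]
      exact hm.add_even (even_two_mul _)
    have b1 := energy_two w1 y3 k l hkl (a1 k hk) (a1 l hl)
    have b2 := energy_two w2 y4 k l hkl (a2 k hk) (a2 l hl)
    intro h
    omega
  · push Not at hu
    have hu' : ∀ k, Even ((w1 + w2).coeff k) := fun k => Int.not_odd_iff_even.mp (hu k)
    have hxu : ∀ k, Even ((x * (w1 + w2)).coeff k) := by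
      intro k
      rw [hx, add_mul, AddMonoidAlgebra.coeff_add, Finsupp.add_apply, coeff_T_mul, coeff_T_mul]
      exact (hu' _).add (hu' _)
    have e13 : ∀ k, Even ((w1 + y3).coeff k) := by
      intro k
      rw [h13, AddMonoidAlgebra.coeff_add, Finsupp.add_apply, hcoeff2]
      exact (hxu k).add (even_two_mul _)
    have e24 : ∀ k, Even ((w2 + y4).coeff k) := by
      intro k
      rw [h24, AddMonoidAlgebra.coeff_add, Finsupp.add_apply, hcoeff2]
      exact (hxu k).add (even_two_mul _)
    have h4 := energy_four ![w1, w2, y3, y4] (by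
      intro k i
      have c12 := hu' k
      have c13 := e13 k
      have c24 := e24 k
      rw [AddMonoidAlgebra.coeff_add, Finsupp.add_apply] at c12 c13 c24
      fin_cases i
      · simp
      · simp only [Fin.mk_one, Matrix.cons_val_one, Matrix.cons_val_zero]
        obtain ⟨a, ha⟩ := c12
        exact ⟨a - w1.coeff k, by linarith⟩
      · simp only [Fin.reduceFinMk, Matrix.cons_val, Matrix.cons_val_zero]
        obtain ⟨a, ha⟩ := c13
        exact ⟨a - w1.coeff k, by linarith⟩
      · simp only [Fin.reduceFinMk, Matrix.cons_val, Matrix.cons_val_zero]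
        obtain ⟨a, ha⟩ := c12
        obtain ⟨b, hb⟩ := c24
        exact ⟨b - a, by linarith⟩)
    rw [Fin.sum_univ_four] at h4
    simp only [Matrix.cons_val_zero, Matrix.cons_val_one, Matrix.cons_val] at h4
    intro h
    rw [h] at h4
    norm_num at h4

end Pool.Agent.Q125.HT
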