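import Mathlib.Algebra.Polynomial.Laurent
import Mathlib.LinearAlgebra.Matrix.NonsingularInverse
import Mathlib.Tactic

/-!
# Polynomial matrix identities behind the stable isometry
-/

set_option autoImplicit false

namespace Pool.Agent.Q125.HT

def matA {R : Type*} [CommRing R] (t : R) : Matrix (Fin 6) (Fin 6) R :=
  !![-5*t + 11*t^2 - 5*t^3, -5*t + 10*t^2 - 5*t^3, -2*t + 4*t^2 - 2*t^3, -2*t + 4*t^2 - 2*t^3, 5*t - 6*t^2 + 3*t^3 - 2*t^4, -2*t^2 + 2*t^3;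
    -5*t + 10*t^2 - 5*t^3, -5*t + 11*t^2 - 5*t^3, -2*t + 4*t^2 - 2*t^3, -2*t + 4*t^2 - 2*t^3, 5*t - 6*t^2 + 3*t^3 - 2*t^4, -2*t^2 + 2*t^3;
    5 - 8*t + 6*t^2 - 8*t^3 + 5*t^4, 5 - 8*t + 6*t^2 - 8*t^3 + 5*t^4, 2 - 3*t + 3*t^2 - 3*t^3 + 2*t^4, 2 - 3*t + 2*t^2 - 3*t^3 + 2*t^4, -5 + 4*t - 6*t^2 + 7*t^3 - 2*t^4 + 2*t^5, 2*t - t^2 + t^3 - 2*t^4;
    5 - 8*t + 6*t^2 - 8*t^3 + 5*t^4, 5 - 8*t + 6*t^2 - 8*t^3 + 5*t^4, 2 - 3*t + 2*t^2 - 3*t^3 + 2*t^4, 2 - 3*t + 3*t^2 - 3*t^3 + 2*t^4, -5 + 4*t - 6*t^2 + 7*t^3 - 2*t^4 + 2*t^5, 2*t - t^2 + t^3 - 2*t^4;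
    8*t - 2*t^2 - 5*t^3, 8*t - 2*t^2 - 5*t^3, 3*t - t^2 - 2*t^3, 3*t - t^2 - 2*t^3, -8*t - 4*t^2 - 2*t^3 - 2*t^4, 3*t^2 + 2*t^3;
    11*t - 10*t^2, 11*t - 10*t^2, 4*t - 4*t^2, 4*t - 4*t^2, -11*t + 2*t^2 - 4*t^3, 4*t^2]

def matB {R : Type*} [CommRing R] (t : R) : Matrix (Fin 6) (Fin 6) R :=
  !![t^2, 0, 0, 0, 2*t^2 - 2*t^3, -t^2 + t^4;
    0, t^2, 0, 0, 2*t^2 - 2*t^3, -t^2 + t^4;
    0, 0, t^2, 0, -2*t - t^2 + 3*t^3, t + 2*t^2 - 2*t^3 - t^4;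
    0, 0, 0, t^2, -2*t - t^2 + 3*t^3, t + 2*t^2 - 2*t^3 - t^4;
    t^2, t^2, 0, 0, 4*t^2, -2*t^2 - 3*t^3;
    2*t^2 + t^3, 2*t^2 + t^3, -t + t^2, -t + t^2, 4 - 2*t + 11*t^2, -2 - 2*t - 4*t^2 - 8*t^3]

def matBt {R : Type*} [CommRing R] (t : R) : Matrix (Fin 6) (Fin 6) R :=
  !![t^2, 0, 0, 0, t^2, t + 2*t^2;
    0, t^2, 0, 0, t^2, t + 2*t^2;
    0, 0, t^2, 0, 0, t^2 - t^3;
    0, 0, 0, t^2, 0, t^2 - t^3;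
    -2*t + 2*t^2, -2*t + 2*t^2, 3*t - t^2 - 2*t^3, 3*t - t^2 - 2*t^3, 4*t^2, 11*t^2 - 2*t^3 + 4*t^4;
    1 - t^2, 1 - t^2, -1 - 2*t + 2*t^2 + t^3, -1 - 2*t + 2*t^2 + t^3, -3*t - 2*t^2, -8*t - 4*t^2 - 2*t^3 - 2*t^4]

def matD {R : Type*} [CommRing R] (t : R) : Matrix (Fin 6) (Fin 6) R :=
  !![7*t^3, 6*t^3, 3*t^3, 2*t^3, -10*t^2 + 21*t^3 - 11*t^4, 5*t^2 - 3*t^3 - 10*t^4 + 8*t^5;
    6*t^3, 7*t^3, 2*t^3, 3*t^3, -10*t^2 + 21*t^3 - 11*t^4, 5*t^2 - 3*t^3 - 10*t^4 + 8*t^5;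
    3*t^3, 2*t^3, 2*t^3, 0, -4*t^2 + 8*t^3 - 4*t^4, 2*t^2 - t^3 - 4*t^4 + 3*t^5;
    2*t^3, 3*t^3, 0, 2*t^3, -4*t^2 + 8*t^3 - 4*t^4, 2*t^2 - t^3 - 4*t^4 + 3*t^5;
    -2*t^3 + t^4 + t^5, -2*t^3 + t^4 + t^5, t^2 - 2*t^3 + t^4, t^2 - 2*t^3 + t^4, -4*t + 6*t^2 - 13*t^3 + 11*t^4, 2*t + 2*t^3 + 4*t^4 - 8*t^5;
    t^2 - t^3, t^2 - t^3, 0, 0, 4*t^2 - 4*t^3, -2*t^2 - t^3 + 3*t^4]

def matLH {R : Type*} [CommRing R] (t : R) : Matrix (Fin 6) (Fin 6) R :=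
  !![1 + t + 3*t^2 + t^3 + t^4, 1 + t + 2*t^2 + t^3 + t^4, t + t^2 + t^3, t + t^3, 0, 0;
    1 + t + 2*t^2 + t^3 + t^4, 1 + t + 3*t^2 + t^3 + t^4, t + t^3, t + t^2 + t^3, 0, 0;
    t + t^2 + t^3, t + t^3, 2*t^2, 0, 0, 0;
    t + t^3, t + t^2 + t^3, 0, 2*t^2, 0, 0;
    0, 0, 0, 0, 0, -t^2 + t^3;
    0, 0, 0, 0, t - t^2, 0]

def matN {R : Type*} [CommRing R] (t : R) : Matrix (Fin 6) (Fin 6) R :=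
  !![7*t, 6*t, 3*t, 2*t, 0, 0;
    6*t, 7*t, 2*t, 3*t, 0, 0;
    3*t, 2*t, 2*t, 0, 0, 0;
    2*t, 3*t, 0, 2*t, 0, 0;
    0, 0, 0, 0, 0, -t + t^2;
    0, 0, 0, 0, 1 - t, 0]

def matL0 {R : Type*} [CommRing R] (t : R) : Matrix (Fin 4) (Fin 4) R :=
  !![1 + t + 3*t^2 + t^3 + t^4, 1 + t + 2*t^2 + t^3 + t^4, t + t^2 + t^3, t + t^3;
    1 + t + 2*t^2 + t^3 + t^4, 1 + t + 3*t^2 + t^3 + t^4, t + t^3, t + t^2 + t^3;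
    t + t^2 + t^3, t + t^3, 2*t^2, 0;
    t + t^3, t + t^2 + t^3, 0, 2*t^2]

def matLi0 {R : Type*} [CommRing R] (t : R) : Matrix (Fin 4) (Fin 4) R :=
  !![2*t^2, 0, -t - t^2 - t^3, -t - t^3;
    0, 2*t^2, -t - t^3, -t - t^2 - t^3;
    -t - t^2 - t^3, -t - t^3, 1 + t + 3*t^2 + t^3 + t^4, 1 + t + 2*t^2 + t^3 + t^4;
    -t - t^3, -t - t^2 - t^3, 1 + t + 2*t^2 + t^3 + t^4, 1 + t + 3*t^2 + t^3 + t^4]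

variable {R : Type*} [CommRing R] (t : R)

theorem AB : matA t * matB t = t ^ 4 • (1 : Matrix (Fin 6) (Fin 6) R) := by
  ext i j
  fin_cases i <;> fin_cases j <;>
    simp [matA, matB, Matrix.mul_apply, Fin.sum_univ_succ, Matrix.smul_apply, Matrix.one_apply] <;>
    ring

theorem BA : matB t * matA t = t ^ 4 • (1 : Matrix (Fin 6) (Fin 6) R) := by
  ext i j
  fin_cases i <;> fin_cases j <;>
    simp [matA, matB, Matrix.mul_apply, Fin.sum_univ_succ, Matrix.smul_apply, Matrix.one_apply] <;>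
    ring

theorem NB : matN t * matB t = matD t := by
  ext i j
  fin_cases i <;> fin_cases j <;>
    simp [matN, matB, matD, Matrix.mul_apply, Fin.sum_univ_succ] <;>
    ring

theorem BtD : matBt t * matD t = t ^ 3 • matLH t := by
  ext i j
  fin_cases i <;> fin_cases j <;>
    simp [matBt, matD, matLH, Matrix.mul_apply, Fin.sum_univ_succ, Matrix.smul_apply] <;>
    ring

theorem LLi : matL0 t * matLi0 t = t ^ 4 • (1 : Matrix (Fin 4) (Fin 4) R) := by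
  ext i j
  fin_cases i <;> fin_cases j <;>
    simp [matL0, matLi0, Matrix.mul_apply, Fin.sum_univ_succ, Matrix.smul_apply,
      Matrix.one_apply] <;>
    ring

end Pool.Agent.Q125.HT
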