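import Pool.Agent.Q125.HT1
import Pool.Agent.Q125.HT2

/-!
# The Hambleton-Teichner form: no vector of norm one, stable isometry
-/

set_option autoImplicit false

namespace Pool.Agent.Q125.HT

open LaurentPolynomial

/-- `x = T + T⁻¹` -/
noncomputable def xx : LZ := T 1 + T (-1)

/-- The Hambleton-Teichner form. -/
noncomputable def formL : Matrix (Fin 4) (Fin 4) LZ :=
  !![1 + xx + xx ^ 2, xx + xx ^ 2, 1 + xx, xx;
    xx + xx ^ 2, 1 + xx + xx ^ 2, xx, 1 + xx;
    1 + xx, xx, 2, 0;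
    xx, 1 + xx, 0, 2]

/-- Its value at `T = 1`. -/
def formQ : Matrix (Fin 4) (Fin 4) ℤ :=
  !![7, 6, 3, 2; 6, 7, 2, 3; 3, 2, 2, 0; 2, 3, 0, 2]

theorem invert_xx : invert xx = xx := by
  unfold xx
  rw [map_add, invert_T, invert_T, neg_neg, add_comm]

theorem twice_norm (w : Fin 4 → LZ) :
    2 * (∑ i, ∑ j, invert (w i) * formL i j * w j) =
      invert (w 0) * w 0 + invert (w 1) * w 1 +
      invert ((1 + xx) * w 0 + xx * w 1 + 2 * w 2) * ((1 + xx) * w 0 + xx * w 1 + 2 * w 2) +
      invert (xx * w 0 + (1 + xx) * w 1 + 2 * w 3) * (xx * w 0 + (1 + xx) * w 1 + 2 * w 3) := by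
  simp only [map_add, map_mul, invert_xx, map_one, map_ofNat]
  simp only [Fin.sum_univ_four, formL]
  simp
  ring

/-- The form does not represent one. -/
theorem norm_ne_one (w : Fin 4 → LZ) :
    (∑ i, ∑ j, invert (w i) * formL i j * w j) ≠ 1 := by
  intro h
  have h1 := twice_norm w
  rw [h] at h1
  have h2 := congrArg (fun y : LZ => y.coeff 0) h1
  simp only [AddMonoidAlgebra.coeff_add, Finsupp.add_apply, energy_eq] at h2
  have h3 : (2 * 1 : LZ).coeff 0 = 2 := by
    rw [two_mul, AddMonoidAlgebra.coeff_add, Finsupp.add_apply]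
    rw [show (1 : LZ) = C 1 by simp, C_apply]
    norm_num
  rw [h3] at h2
  exact no_energy_two (w 0) (w 1) (w 2) (w 3) h2.symm

theorem T_rel : (T 1 : LZ) * T (-1) = 1 := by
  rw [← T_add]; simp

theorem T_rel' : (T (-1) : LZ) * T 1 = 1 := by
  rw [← T_add]; simp

theorem formL_eq : formL = (T (-1) : LZ) ^ 2 • matL0 (T 1 : LZ) := by
  have h : ∀ a b : LZ, a * b = 1 → ∀ i j, (!![1 + (a + b) + (a + b) ^ 2, (a + b) + (a + b) ^ 2,
      1 + (a + b), (a + b);
    (a + b) + (a + b) ^ 2, 1 + (a + b) + (a + b) ^ 2, (a + b), 1 + (a + b);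
    1 + (a + b), (a + b), 2, 0;
    (a + b), 1 + (a + b), 0, 2] : Matrix (Fin 4) (Fin 4) LZ) i j = (b ^ 2 • matL0 a) i j := by
    intro a b hab i j
    have h2 : a ^ 2 * b ^ 2 = 1 := by rw [← mul_pow, hab, one_pow]
    have h12 : a * b ^ 2 = b := by rw [pow_two, ← mul_assoc, hab, one_mul]
    have h32 : a ^ 3 * b ^ 2 = a := by
      rw [show a ^ 3 * b ^ 2 = a * (a ^ 2 * b ^ 2) by ring, h2, mul_one]
    have h42 : a ^ 4 * b ^ 2 = a ^ 2 := by
      rw [show a ^ 4 * b ^ 2 = a ^ 2 * (a ^ 2 * b ^ 2) by ring, h2, mul_one]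
    fin_cases i <;> fin_cases j <;> simp [matL0, Matrix.smul_apply]
    · linear_combination (-3 : LZ) * h2 - h12 - h32 - h42 + 2 * hab
    · linear_combination (-2 : LZ) * h2 - h12 - h32 - h42 + 2 * hab
    · linear_combination (-1 : LZ) * h2 - h12 - h32
    · linear_combination - h12 - h32
    · linear_combination (-2 : LZ) * h2 - h12 - h32 - h42 + 2 * hab
    · linear_combination (-3 : LZ) * h2 - h12 - h32 - h42 + 2 * hab
    · linear_combination - h12 - h32
    · linear_combination (-1 : LZ) * h2 - h12 - h32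
    · linear_combination (-1 : LZ) * h2 - h12 - h32
    · linear_combination - h12 - h32
    · linear_combination (-2 : LZ) * h2
    · linear_combination - h12 - h32
    · linear_combination (-1 : LZ) * h2 - h12 - h32
    · linear_combination (-2 : LZ) * h2
  ext1 i j
  exact h (T 1) (T (-1)) T_rel i j

end Pool.Agent.Q125.HT
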