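import Pool.Agent.Q125.HT3
import Mathlib.RingTheory.Localization.FractionRing

/-!
# The pieces of the counterexample
-/

set_option autoImplicit false

namespace Pool.Agent.Q125.HT

open LaurentPolynomial
open scoped Matrix

/-- the involution -/
noncomputable def sig : LZ →+* LZ := ((invert : LZ ≃ₐ[ℤ] LZ) : LZ →+* LZ)

theorem sig_apply (y : LZ) : sig y = invert y := rfl

/-- the augmentation -/
noncomputable def eps : LZ →+* ℤ := LaurentPolynomial.eval₂ (RingHom.id ℤ) (1 : ℤˣ)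

theorem eps_T (n : ℤ) : eps (T n) = 1 := by
  unfold eps
  rw [LaurentPolynomial.eval₂_T]
  simp

theorem eps_xx : eps xx = 2 := by
  unfold xx
  rw [map_add, eps_T, eps_T]; norm_num

noncomputable def H2 : Matrix (Fin 2) (Fin 2) LZ := !![0, T 1 - 1; T (-1) - 1, 0]

theorem formL_herm : (formL.map sig)ᵀ = formL := by
  ext1 i j
  have n2 : (invert : LZ ≃ₐ[ℤ] LZ) 2 = 2 := map_ofNat _ 2
  rw [Matrix.transpose_apply, Matrix.map_apply, sig_apply]
  fin_cases i <;> fin_cases j <;> simp [formL, invert_xx, n2]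

theorem formL_eps : formL.map eps = formQ := by
  ext1 i j
  have n2 : eps 2 = 2 := map_ofNat _ 2
  rw [Matrix.map_apply]
  fin_cases i <;> fin_cases j <;> simp [formL, formQ, eps_xx, n2]

theorem formQ_symm : formQᵀ = formQ := by
  ext i j
  fin_cases i <;> fin_cases j <;> rfl

noncomputable def formLi : Matrix (Fin 4) (Fin 4) LZ := (T (-1) : LZ) ^ 2 • matLi0 (T 1 : LZ)

theorem pow_rel (n : ℕ) : (T (-1) : LZ) ^ n * (T 1 : LZ) ^ n = 1 := by
  rw [← mul_pow, T_rel', one_pow]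

theorem formL_inv : formL * formLi = 1 := by
  rw [formL_eq, formLi, Matrix.smul_mul, Matrix.mul_smul, LLi, smul_smul, smul_smul, ← pow_add,
    pow_rel, one_smul]

theorem formL_det : formL.det ≠ 0 := by
  have h := congrArg Matrix.det formL_inv
  rw [Matrix.det_mul, Matrix.det_one] at h
  intro h0
  rw [h0, zero_mul] at h
  exact zero_ne_one h

theorem formQ_inv : formQ * (formLi.map eps) = 1 := by
  rw [← formL_eps, ← Matrix.map_mul, formL_inv]
  simp

theorem formQ_det : IsUnit formQ.det := by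
  have h := congrArg Matrix.det formQ_inv
  rw [Matrix.det_mul, Matrix.det_one] at h
  exact IsUnit.of_mul_eq_one _ h

/-- Fin 4 ⊕ Fin 2 × Fin 1 as Fin 6 -/
def ix : Fin 4 ⊕ Fin 2 × Fin 1 ≃ Fin 6 :=
  (Equiv.sumCongr (Equiv.refl _) (Equiv.prodUnique (Fin 2) (Fin 1))).trans finSumFinEquiv

noncomputable def P6 : Matrix (Fin 6) (Fin 6) LZ := (T (-1) : LZ) ^ 2 • matA (T 1 : LZ)
noncomputable def B6 : Matrix (Fin 6) (Fin 6) LZ := (T (-1) : LZ) ^ 2 • matB (T 1 : LZ)

theorem P6B6 : P6 * B6 = 1 := by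
  rw [P6, B6, Matrix.smul_mul, Matrix.mul_smul, AB, smul_smul, smul_smul, ← pow_add,
    pow_rel, one_smul]

theorem B6P6 : B6 * P6 = 1 := by
  rw [P6, B6, Matrix.smul_mul, Matrix.mul_smul, BA, smul_smul, smul_smul, ← pow_add,
    pow_rel, one_smul]

/-- `L ⊕ H₂` -/
noncomputable def LH6 : Matrix (Fin 6) (Fin 6) LZ := (T (-1) : LZ) ^ 2 • matLH (T 1 : LZ)
/-- `Q ⊕ H₂` -/
noncomputable def N6 : Matrix (Fin 6) (Fin 6) LZ := (T (-1) : LZ) • matN (T 1 : LZ)

theorem B6_sig : (B6.map sig)ᵀ = (T (-1) : LZ) ^ 2 • matBt (T 1 : LZ) := by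
  have hs : sig (T 1) = T (-1) := by rw [sig_apply, invert_T]
  have hs' : sig (T (-1)) = T 1 := by rw [sig_apply, invert_T, neg_neg]
  have h : ∀ a b : LZ, a * b = 1 → sig a = b → sig b = a → ∀ i j,
      ((b ^ 2 • matB a).map sig)ᵀ i j = (b ^ 2 • matBt a) i j := by
    intro a b hab ha hb i j
    have h2 : a ^ 2 * b ^ 2 = 1 := by rw [← mul_pow, hab, one_pow]
    have h12 : a * b ^ 2 = b := by rw [pow_two, ← mul_assoc, hab, one_mul]
    have h21 : a ^ 2 * b = a := by rw [pow_two, mul_assoc, hab, mul_one]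
    have h32 : a ^ 3 * b ^ 2 = a := by
      rw [show a ^ 3 * b ^ 2 = a * (a ^ 2 * b ^ 2) by ring, h2, mul_one]
    have h23 : a ^ 2 * b ^ 3 = b := by
      rw [show a ^ 2 * b ^ 3 = b * (a ^ 2 * b ^ 2) by ring, h2, mul_one]
    have h42 : a ^ 4 * b ^ 2 = a ^ 2 := by
      rw [show a ^ 4 * b ^ 2 = a ^ 2 * (a ^ 2 * b ^ 2) by ring, h2, mul_one]
    have h24 : a ^ 2 * b ^ 4 = b ^ 2 := by
      rw [show a ^ 2 * b ^ 4 = b ^ 2 * (a ^ 2 * b ^ 2) by ring, h2, mul_one]
    have n2 : sig 2 = 2 := map_ofNat _ 2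
    have n3 : sig 3 = 3 := map_ofNat _ 3
    have n4 : sig 4 = 4 := map_ofNat _ 4
    have n8 : sig 8 = 8 := map_ofNat _ 8
    have n11 : sig 11 = 11 := map_ofNat _ 11
    rw [Matrix.transpose_apply, Matrix.map_apply]
    fin_cases i <;> fin_cases j <;>
      simp [matB, matBt, Matrix.smul_apply, ha, hb, n2, n3, n4, n8, n11] <;> ring_nf <;>
      simp only [h2, h12, h21, h32, h23, h42, h24] <;> (try ring)
  ext1 i j
  exact h (T 1) (T (-1)) T_rel hs hs' i j

theorem isom6' : (B6.map sig)ᵀ * N6 * B6 = LH6 := by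
  rw [B6_sig, N6, B6, LH6]
  simp only [Matrix.smul_mul, Matrix.mul_smul, smul_smul]
  rw [Matrix.mul_assoc, NB, BtD, smul_smul]
  congr 1
  have h := pow_rel 3
  linear_combination (T (-1) : LZ) ^ 2 * h

theorem isom6 : (P6.map sig)ᵀ * LH6 * P6 = N6 := by
  have h1 : (P6.map sig)ᵀ * (B6.map sig)ᵀ = 1 := by
    rw [← Matrix.transpose_mul, ← Matrix.map_mul, B6P6]
    simp
  rw [← isom6']
  calc (P6.map sig)ᵀ * ((B6.map sig)ᵀ * N6 * B6) * P6
      = ((P6.map sig)ᵀ * (B6.map sig)ᵀ) * N6 * (B6 * P6) := by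
        simp only [Matrix.mul_assoc]
    _ = N6 := by rw [h1, B6P6, Matrix.one_mul, Matrix.mul_one]

theorem ix0 : ix (Sum.inl 0) = 0 := rfl
theorem ix1 : ix (Sum.inl 1) = 1 := rfl
theorem ix2 : ix (Sum.inl 2) = 2 := rfl
theorem ix3 : ix (Sum.inl 3) = 3 := rfl
theorem ix4 (k : Fin 1) : ix (Sum.inr (0, k)) = 4 := by
  rw [Subsingleton.elim k 0]; rfl
theorem ix5 (k : Fin 1) : ix (Sum.inr (1, k)) = 5 := by
  rw [Subsingleton.elim k 0]; rfl

theorem bd_apply (i j : Fin 2) (k l : Fin 1) :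
    Matrix.blockDiagonal (fun _ : Fin 1 => H2) (i, k) (j, l) = H2 i j := by
  rw [Matrix.blockDiagonal_apply, if_pos (Subsingleton.elim _ _)]

theorem LH_blocks : Matrix.fromBlocks formL 0 0 (Matrix.blockDiagonal (fun _ : Fin 1 => H2)) =
    LH6.submatrix ix ix := by
  have h2 : (T (-2) : LZ) * T 2 = 1 := by rw [← T_add]; simp
  have h12 : (T (-2) : LZ) * T 1 = T (-1) := by rw [← T_add]; simp
  have h32 : (T (-2) : LZ) * T 3 = T 1 := by rw [← T_add]; simp
  ext1 i j
  rcases i with i | ⟨i, k⟩ <;> rcases j with j | ⟨j, l⟩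
  · rw [Matrix.fromBlocks_apply₁₁, Matrix.submatrix_apply, formL_eq]
    fin_cases i <;> fin_cases j <;>
      simp [ix0, ix1, ix2, ix3, LH6, matLH, matL0, Matrix.smul_apply]
  · rw [Matrix.fromBlocks_apply₁₂, Matrix.submatrix_apply]
    fin_cases i <;> fin_cases j <;>
      simp [ix0, ix1, ix2, ix3, ix4, ix5, LH6, matLH, Matrix.smul_apply]
  · rw [Matrix.fromBlocks_apply₂₁, Matrix.submatrix_apply]
    fin_cases i <;> fin_cases j <;>
      simp [ix0, ix1, ix2, ix3, ix4, ix5, LH6, matLH, Matrix.smul_apply]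
  · rw [Matrix.fromBlocks_apply₂₂, Matrix.submatrix_apply, bd_apply]
    fin_cases i <;> fin_cases j <;>
      simp [ix4, ix5, LH6, matLH, Matrix.smul_apply, H2]
    · linear_combination h2 - h32
    · linear_combination h2 - h12

theorem N_blocks : Matrix.fromBlocks (formQ.map (Int.castRingHom LZ)) 0 0
    (Matrix.blockDiagonal (fun _ : Fin 1 => H2)) = N6.submatrix ix ix := by
  have h1 : (T (-1) : LZ) * T 1 = 1 := T_rel'
  have h12 : (T (-1) : LZ) * T 2 = T 1 := by rw [← T_add]; simp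
  ext1 i j
  rcases i with i | ⟨i, k⟩ <;> rcases j with j | ⟨j, l⟩
  · rw [Matrix.fromBlocks_apply₁₁, Matrix.submatrix_apply]
    fin_cases i <;> fin_cases j <;>
      simp [ix0, ix1, ix2, ix3, N6, matN, formQ, Matrix.smul_apply]
  · rw [Matrix.fromBlocks_apply₁₂, Matrix.submatrix_apply]
    fin_cases i <;> fin_cases j <;>
      simp [ix0, ix1, ix2, ix3, ix4, ix5, N6, matN, Matrix.smul_apply]
  · rw [Matrix.fromBlocks_apply₂₁, Matrix.submatrix_apply]
    fin_cases i <;> fin_cases j <;>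
      simp [ix0, ix1, ix2, ix3, ix4, ix5, N6, matN, Matrix.smul_apply]
  · rw [Matrix.fromBlocks_apply₂₂, Matrix.submatrix_apply, bd_apply]
    fin_cases i <;> fin_cases j <;>
      simp [ix4, ix5, N6, matN, Matrix.smul_apply, H2]
    · linear_combination h1 - h12
    · linear_combination h1

end Pool.Agent.Q125.HT
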