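import Mathlib
import Pool.Agent.W612.WSL.Defs

/-!
# Virtual and welded pure braids and string links up to self-crossing changes

Gauss diagrams, generalized Reidemeister moves, Overcrossings Commute and self-crossing changes are
those of `Pool.Agent.W612.WSL.Defs`; so is `WSLsc n`, the set of welded string links on `n` strands
up to self-crossing changes. Here the virtual version `VSLsc n` is added, and the virtual and
welded pure braids: monotone Gauss diagrams modulo the moves through monotone Gauss diagrams.
-/

set_option autoImplicit false

namespace Pool.Agent.Q125.SC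

open Pool.Agent.W612.WSL

/-- A Gauss diagram is monotone if every arrow joins different strands and the arrows can be given
heights which increase along all strands. -/
def IsMono {n : ℕ} (w : List (End n)) : Prop :=
  (∀ x ∈ w, x.1.src ≠ x.1.tgt) ∧
    ∃ h : ℕ → ℕ, w.Pairwise fun x y => strand x = strand y → h x.1.name < h y.1.name

/-- Monotone Gauss diagrams on `n` strands. -/
abbrev MonoDiagram (n : ℕ) : Type := {w : List (End n) // IsGauss w ∧ IsMono w}

/-- The virtual pure braids `vP_n`: monotone diagrams modulo the generalized Reidemeister moves,
all diagrams in between being monotone. -/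
def VP (n : ℕ) : Type := Quot fun v w : MonoDiagram n => Reidemeister v.1 w.1

/-- The welded pure braids `wP_n`: monotone diagrams modulo the generalized Reidemeister moves
and Overcrossings Commute, all diagrams in between being monotone. -/
def WP (n : ℕ) : Type :=
  Quot fun v w : MonoDiagram n => Reidemeister v.1 w.1 ∨ OvercrossingsCommute v.1 w.1

/-- The set `vSL_n^sc` of virtual string links on `n` strands up to self-crossing changes. -/
def VSLsc (n : ℕ) : Type :=
  Quot fun v w : Diagram n => Reidemeister v.1 w.1 ∨ SelfCrossingChange v.1 w.1

/-- A monotone diagram as a string link diagram. -/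
def MonoDiagram.toDiagram {n : ℕ} (v : MonoDiagram n) : Diagram n := ⟨v.1, v.2.1⟩

/-- The empty diagram (the trivial braid). -/
def emptyMono (n : ℕ) : MonoDiagram n :=
  ⟨[], ⟨by simp, by simp⟩, by simp [IsMono]⟩

/-- The map `vP_n → vSL_n^sc`, whose image is `vP_n^sc`. -/
def piV (n : ℕ) : VP n → VSLsc n :=
  Quot.map MonoDiagram.toDiagram fun _ _ h => Or.inl h

/-- The map `wP_n → wSL_n^sc`, whose image is `wP_n^sc`. -/
def piW (n : ℕ) : WP n → WSLsc n :=
  Quot.map MonoDiagram.toDiagram fun _ _ h => h.elim Or.inl fun h => Or.inr (Or.inl h)

/-- The trivial elements. -/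
def oneVP (n : ℕ) : VP n := Quot.mk _ (emptyMono n)
def oneWP (n : ℕ) : WP n := Quot.mk _ (emptyMono n)
def oneVSL (n : ℕ) : VSLsc n := Quot.mk _ (emptyMono n).toDiagram
def oneWSL (n : ℕ) : WSLsc n := Quot.mk _ (emptyMono n).toDiagram

/-! ## The word along the first strand -/

/-- The letters of the ends on strand `0`: the letter is `true` for tails and `false` for heads. -/
def letters (w : List (End 2)) : List (Bool × Bool) :=
  (w.filter fun x => strand x = 0).map fun x => (x.2, x.1.pos)

/-- The word in the free group of rank 2. -/
def inv (w : List (End 2)) : FreeGroup Bool := FreeGroup.mk (letters w)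

theorem letters_append (v w : List (End 2)) : letters (v ++ w) = letters v ++ letters w := by
  simp [letters]

theorem letters_cons (x : End 2) (w : List (End 2)) :
    letters (x :: w) = (if strand x = 0 then [(x.2, x.1.pos)] else []) ++ letters w := by
  unfold letters
  by_cases h : strand x = 0
  · simp [h]
  · simp [h]

theorem mk_cancel (A B : List (Bool × Bool)) (a b b' : Bool) (h : b ≠ b') :
    FreeGroup.mk (A ++ (a, b) :: (a, b') :: B) = FreeGroup.mk (A ++ B) := by
  have h' : b' = !b := by cases b <;> cases b' <;> simp_all
  subst h'
  exact Quot.sound FreeGroup.Red.Step.not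

theorem inv_swap (A B : List (End 2)) (x y : End 2) (h : strand x ≠ strand y) :
    inv (A ++ x :: y :: B) = inv (A ++ y :: x :: B) := by
  unfold inv
  rw [letters_append, letters_append, letters_cons, letters_cons, letters_cons, letters_cons]
  by_cases hx : strand x = 0
  · have hy : strand y ≠ 0 := fun hy => h (hx.trans hy.symm)
    simp [hx, hy]
  · simp [hx]

theorem two_cases (a b c : Fin 2) (h : a ≠ b) (h' : b ≠ c) : a = c := by
  revert h h'; revert a b c; decide

theorem inv_oc (v w : List (End 2)) (h : OvercrossingsCommute v w) : inv v = inv w := by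
  obtain ⟨α, β, h, A, B⟩ := h
  unfold inv
  simp only [letters_append, letters_cons]
  have e1 : strand ((α, true) : End 2) = α.src := rfl
  have e2 : strand ((β, true) : End 2) = α.src := h.symm
  rw [e1, e2]
  by_cases h0 : α.src = 0
  · simp only [h0, if_true]
    by_cases hp : α.pos = β.pos
    · rw [hp]
    · simp only [List.cons_append, List.nil_append]
      rw [mk_cancel _ _ _ _ _ hp, mk_cancel _ _ _ _ _ (Ne.symm hp)]
  · simp [h0]

theorem inv_reidemeister (v w : List (End 2)) (hv : IsMono v)
    (h : Reidemeister v w) : inv v = inv w := by
  obtain ⟨hv1, ht, hv2⟩ := hv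
  cases h with
  | rename g hg w =>
    unfold inv letters
    congr 1
    rw [List.filter_map, List.map_map]
    rfl
  | far x y h A B => exact inv_swap A B x y h
  | r1 α h e A B => exact absurd h (hv1 (α, e) (by simp))
  | r2_parallel α β hs ht' hp e A B C =>
    have hne : α.src ≠ α.tgt := hv1 (α, e) (by simp)
    unfold inv
    simp only [letters_append, letters_cons, List.append_assoc, List.cons_append]
    have e1 : strand ((β, e) : End 2) = strand ((α, e) : End 2) := by
      cases e <;> simp [strand, hs, ht']
    have e2 : strand ((β, !e) : End 2) = strand ((α, !e) : End 2) := by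
      cases e <;> simp [strand, hs, ht']
    rw [e1, e2]
    by_cases h0 : strand ((α, e) : End 2) = 0
    · have h1 : strand ((α, !e) : End 2) ≠ 0 := by
        rw [← h0]
        cases e
        · simpa [strand] using hne
        · simpa [strand] using hne.symm
      simp only [h0, h1, if_true, if_false, List.nil_append, List.cons_append]
      exact mk_cancel _ _ _ _ _ hp
    · have h1 : strand ((α, !e) : End 2) = 0 := by
        have hne' : strand ((α, !e) : End 2) ≠ strand ((α, e) : End 2) := by
          cases e
          · simpa [strand] using hne
          · simpa [strand] using hne.symm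
        exact two_cases _ _ _ hne' h0
      simp only [h0, h1, if_true, if_false, List.nil_append, List.cons_append]
      have := mk_cancel (letters A ++ letters B) (letters C) (!e) α.pos β.pos hp
      simpa [List.append_assoc] using this
  | r2_opposite α β hs ht' hp e A B C =>
    exfalso
    rw [List.append_assoc, List.pairwise_append] at hv2
    obtain ⟨-, h2, -⟩ := hv2
    rw [List.cons_append, List.cons_append, List.pairwise_cons, List.pairwise_cons,
      List.pairwise_append] at h2
    obtain ⟨h3, -, -, h4, -⟩ := h2
    have e1 : strand ((α, e) : End 2) = strand ((β, e) : End 2) := by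
      cases e <;> simp [strand, hs, ht']
    have e2 : strand ((β, !e) : End 2) = strand ((α, !e) : End 2) := by
      cases e <;> simp [strand, hs, ht']
    have h5 := h3 (β, e) (by simp) e1
    rw [List.pairwise_cons] at h4
    have h6 := h4.1 (α, !e) (by simp) e2
    simp only at h5 h6
    omega
  | r3 δ a b c hs hm ht' p q r h A B C D =>
    exfalso
    have hmem : ∀ pr ∈ [p, q, r], pr.1.1.src ≠ pr.1.1.tgt ∧ pr.2.1.src ≠ pr.2.1.tgt := by
      intro pr hpr
      simp only [List.mem_cons, List.not_mem_nil, or_false] at hpr
      rcases hpr with rfl | rfl | rfl <;> exact ⟨hv1 _ (by simp), hv1 _ (by simp)⟩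
    have hmem' : ∀ pr ∈ triangle δ a b c, pr.1.1.src ≠ pr.1.1.tgt ∧ pr.2.1.src ≠ pr.2.1.tgt :=
      fun pr hpr => hmem pr (h.mem_iff.mpr hpr)
    have h1 := hmem' (order ((δ == a.pos) == (b.pos == c.pos)) (a, true) (b, true))
      (by simp [triangle])
    have h2 := hmem' (order (δ == a.pos) (a, false) (c, true)) (by simp [triangle])
    have ha : a.src ≠ a.tgt := by
      unfold order at h1
      split at h1
      · exact h1.1
      · exact h1.2
    have hb : b.src ≠ b.tgt := by
      unfold order at h1
      split at h1
      · exact h1.2
      · exact h1.1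
    have hc : c.src ≠ c.tgt := by
      unfold order at h2
      split at h2
      · exact h2.2
      · exact h2.1
    apply hb
    rw [ht', ← hs]
    exact two_cases _ _ _ (hm ▸ ha) hc

/-- The word of a virtual pure braid on two strands. -/
def invVP : VP 2 → FreeGroup Bool :=
  Quot.lift (fun v => inv v.1) fun v w h => inv_reidemeister v.1 w.1 v.2.2 h

/-- The word of a welded pure braid on two strands. -/
def invWP : WP 2 → FreeGroup Bool :=
  Quot.lift (fun v => inv v.1) fun v w h =>
    h.elim (inv_reidemeister v.1 w.1 v.2.2) (inv_oc v.1 w.1)

end Pool.Agent.Q125.SC
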