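import Pool.Agent.Q125.SC1

/-!
# An explicit sequence of moves

`d0` is the Gauss diagram of the braid `A B A⁻¹ B⁻¹ B⁻¹ A⁻¹ B A` where `A` is a positive crossing
at which strand `0` passes over strand `1`, and `B` is a positive crossing at which strand `1` passes
over strand `0`. The list was found by hand: up to self-crossing changes, `A B` commutes with
`A⁻¹ B⁻¹`.
-/

set_option autoImplicit false

namespace Pool.Agent.Q125.SC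

open Pool.Agent.W612.WSL

def l0 : List (End 2) :=
  [(⟨0, 0, 1, true⟩, true), (⟨1, 1, 0, true⟩, false), (⟨2, 0, 1, false⟩, true), (⟨3, 1, 0, false⟩, false), (⟨4, 1, 0, false⟩, false), (⟨5, 0, 1, false⟩, true), (⟨6, 1, 0, true⟩, false), (⟨7, 0, 1, true⟩, true), (⟨0, 0, 1, true⟩, false), (⟨1, 1, 0, true⟩, true), (⟨2, 0, 1, false⟩, false), (⟨3, 1, 0, false⟩, true), (⟨4, 1, 0, false⟩, true), (⟨5, 0, 1, false⟩, false), (⟨6, 1, 0, true⟩, true), (⟨7, 0, 1, true⟩, false)]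

def l1 : List (End 2) :=
  [(⟨0, 0, 1, true⟩, true), (⟨1, 1, 0, true⟩, false), (⟨10, 0, 1, false⟩, true), (⟨11, 0, 1, true⟩, true), (⟨2, 0, 1, false⟩, true), (⟨3, 1, 0, false⟩, false), (⟨4, 1, 0, false⟩, false), (⟨5, 0, 1, false⟩, true), (⟨6, 1, 0, true⟩, false), (⟨7, 0, 1, true⟩, true), (⟨10, 0, 1, false⟩, false), (⟨11, 0, 1, true⟩, false), (⟨0, 0, 1, true⟩, false), (⟨1, 1, 0, true⟩, true), (⟨2, 0, 1, false⟩, false), (⟨3, 1, 0, false⟩, true), (⟨4, 1, 0, false⟩, true), (⟨5, 0, 1, false⟩, false), (⟨6, 1, 0, true⟩, true), (⟨7, 0, 1, true⟩, false)]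

def l2 : List (End 2) :=
  [(⟨0, 0, 1, true⟩, true), (⟨12, 0, 0, true⟩, true), (⟨13, 0, 0, false⟩, true), (⟨1, 1, 0, true⟩, false), (⟨10, 0, 1, false⟩, true), (⟨11, 0, 1, true⟩, true), (⟨12, 0, 0, true⟩, false), (⟨13, 0, 0, false⟩, false), (⟨2, 0, 1, false⟩, true), (⟨3, 1, 0, false⟩, false), (⟨4, 1, 0, false⟩, false), (⟨5, 0, 1, false⟩, true), (⟨6, 1, 0, true⟩, false), (⟨7, 0, 1, true⟩, true), (⟨10, 0, 1, false⟩, false), (⟨11, 0, 1, true⟩, false), (⟨0, 0, 1, true⟩, false), (⟨1, 1, 0, true⟩, true), (⟨2, 0, 1, false⟩, false), (⟨3, 1, 0, false⟩, true), (⟨4, 1, 0, false⟩, true), (⟨5, 0, 1, false⟩, false), (⟨6, 1, 0, true⟩, true), (⟨7, 0, 1, true⟩, false)]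

def l3 : List (End 2) :=
  [(⟨12, 0, 0, true⟩, true), (⟨0, 0, 1, true⟩, true), (⟨13, 0, 0, false⟩, true), (⟨1, 1, 0, true⟩, false), (⟨10, 0, 1, false⟩, true), (⟨12, 0, 0, true⟩, false), (⟨11, 0, 1, true⟩, true), (⟨13, 0, 0, false⟩, false), (⟨2, 0, 1, false⟩, true), (⟨3, 1, 0, false⟩, false), (⟨4, 1, 0, false⟩, false), (⟨5, 0, 1, false⟩, true), (⟨6, 1, 0, true⟩, false), (⟨7, 0, 1, true⟩, true), (⟨10, 0, 1, false⟩, false), (⟨0, 0, 1, true⟩, false), (⟨11, 0, 1, true⟩, false), (⟨1, 1, 0, true⟩, true), (⟨2, 0, 1, false⟩, false), (⟨3, 1, 0, false⟩, true), (⟨4, 1, 0, false⟩, true), (⟨5, 0, 1, false⟩, false), (⟨6, 1, 0, true⟩, true), (⟨7, 0, 1, true⟩, false)]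

def l4 : List (End 2) :=
  [(⟨12, 0, 0, true⟩, true), (⟨0, 0, 1, true⟩, true), (⟨13, 0, 0, true⟩, false), (⟨1, 1, 0, true⟩, false), (⟨10, 0, 1, false⟩, true), (⟨12, 0, 0, true⟩, false), (⟨11, 0, 1, true⟩, true), (⟨13, 0, 0, true⟩, true), (⟨2, 0, 1, false⟩, true), (⟨3, 1, 0, false⟩, false), (⟨4, 1, 0, false⟩, false), (⟨5, 0, 1, false⟩, true), (⟨6, 1, 0, true⟩, false), (⟨7, 0, 1, true⟩, true), (⟨10, 0, 1, false⟩, false), (⟨0, 0, 1, true⟩, false), (⟨11, 0, 1, true⟩, false), (⟨1, 1, 0, true⟩, true), (⟨2, 0, 1, false⟩, false), (⟨3, 1, 0, false⟩, true), (⟨4, 1, 0, false⟩, true), (⟨5, 0, 1, false⟩, false), (⟨6, 1, 0, true⟩, true), (⟨7, 0, 1, true⟩, false)]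

def l5 : List (End 2) :=
  [(⟨12, 0, 0, true⟩, true), (⟨0, 0, 1, true⟩, true), (⟨1, 1, 0, true⟩, false), (⟨13, 0, 0, true⟩, false), (⟨10, 0, 1, false⟩, true), (⟨12, 0, 0, true⟩, false), (⟨11, 0, 1, true⟩, true), (⟨2, 0, 1, false⟩, true), (⟨13, 0, 0, true⟩, true), (⟨3, 1, 0, false⟩, false), (⟨4, 1, 0, false⟩, false), (⟨5, 0, 1, false⟩, true), (⟨6, 1, 0, true⟩, false), (⟨7, 0, 1, true⟩, true), (⟨10, 0, 1, false⟩, false), (⟨0, 0, 1, true⟩, false), (⟨11, 0, 1, true⟩, false), (⟨2, 0, 1, false⟩, false), (⟨1, 1, 0, true⟩, true), (⟨3, 1, 0, false⟩, true), (⟨4, 1, 0, false⟩, true), (⟨5, 0, 1, false⟩, false), (⟨6, 1, 0, true⟩, true), (⟨7, 0, 1, true⟩, false)]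

def l6 : List (End 2) :=
  [(⟨12, 0, 0, true⟩, true), (⟨0, 0, 1, true⟩, true), (⟨1, 1, 0, true⟩, false), (⟨13, 0, 0, true⟩, false), (⟨10, 0, 1, false⟩, true), (⟨12, 0, 0, true⟩, false), (⟨13, 0, 0, true⟩, true), (⟨3, 1, 0, false⟩, false), (⟨4, 1, 0, false⟩, false), (⟨5, 0, 1, false⟩, true), (⟨6, 1, 0, true⟩, false), (⟨7, 0, 1, true⟩, true), (⟨10, 0, 1, false⟩, false), (⟨0, 0, 1, true⟩, false), (⟨1, 1, 0, true⟩, true), (⟨3, 1, 0, false⟩, true), (⟨4, 1, 0, false⟩, true), (⟨5, 0, 1, false⟩, false), (⟨6, 1, 0, true⟩, true), (⟨7, 0, 1, true⟩, false)]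

def l7 : List (End 2) :=
  [(⟨12, 0, 0, true⟩, true), (⟨0, 0, 1, true⟩, true), (⟨1, 1, 0, true⟩, false), (⟨13, 0, 0, true⟩, false), (⟨10, 0, 1, false⟩, true), (⟨12, 0, 0, true⟩, false), (⟨14, 1, 0, false⟩, false), (⟨15, 1, 0, true⟩, false), (⟨13, 0, 0, true⟩, true), (⟨3, 1, 0, false⟩, false), (⟨4, 1, 0, false⟩, false), (⟨5, 0, 1, false⟩, true), (⟨6, 1, 0, true⟩, false), (⟨7, 0, 1, true⟩, true), (⟨10, 0, 1, false⟩, false), (⟨0, 0, 1, true⟩, false), (⟨14, 1, 0, false⟩, true), (⟨15, 1, 0, true⟩, true), (⟨1, 1, 0, true⟩, true), (⟨3, 1, 0, false⟩, true), (⟨4, 1, 0, false⟩, true), (⟨5, 0, 1, false⟩, false), (⟨6, 1, 0, true⟩, true), (⟨7, 0, 1, true⟩, false)]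

def l8 : List (End 2) :=
  [(⟨12, 0, 0, true⟩, true), (⟨0, 0, 1, true⟩, true), (⟨13, 0, 0, true⟩, false), (⟨1, 1, 0, true⟩, false), (⟨10, 0, 1, false⟩, true), (⟨12, 0, 0, true⟩, false), (⟨14, 1, 0, false⟩, false), (⟨13, 0, 0, true⟩, true), (⟨15, 1, 0, true⟩, false), (⟨3, 1, 0, false⟩, false), (⟨4, 1, 0, false⟩, false), (⟨5, 0, 1, false⟩, true), (⟨6, 1, 0, true⟩, false), (⟨7, 0, 1, true⟩, true), (⟨10, 0, 1, false⟩, false), (⟨0, 0, 1, true⟩, false), (⟨14, 1, 0, false⟩, true), (⟨1, 1, 0, true⟩, true), (⟨15, 1, 0, true⟩, true), (⟨3, 1, 0, false⟩, true), (⟨4, 1, 0, false⟩, true), (⟨5, 0, 1, false⟩, false), (⟨6, 1, 0, true⟩, true), (⟨7, 0, 1, true⟩, false)]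

def l9 : List (End 2) :=
  [(⟨12, 0, 0, true⟩, true), (⟨0, 0, 1, true⟩, true), (⟨13, 0, 0, true⟩, false), (⟨1, 1, 0, true⟩, false), (⟨10, 0, 1, false⟩, true), (⟨12, 0, 0, true⟩, false), (⟨14, 1, 0, false⟩, false), (⟨13, 0, 0, true⟩, true), (⟨4, 1, 0, false⟩, false), (⟨5, 0, 1, false⟩, true), (⟨6, 1, 0, true⟩, false), (⟨7, 0, 1, true⟩, true), (⟨10, 0, 1, false⟩, false), (⟨0, 0, 1, true⟩, false), (⟨14, 1, 0, false⟩, true), (⟨1, 1, 0, true⟩, true), (⟨4, 1, 0, false⟩, true), (⟨5, 0, 1, false⟩, false), (⟨6, 1, 0, true⟩, true), (⟨7, 0, 1, true⟩, false)]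

def l10 : List (End 2) :=
  [(⟨0, 0, 1, true⟩, true), (⟨12, 0, 0, true⟩, true), (⟨13, 0, 0, true⟩, false), (⟨1, 1, 0, true⟩, false), (⟨10, 0, 1, false⟩, true), (⟨14, 1, 0, false⟩, false), (⟨12, 0, 0, true⟩, false), (⟨13, 0, 0, true⟩, true), (⟨4, 1, 0, false⟩, false), (⟨5, 0, 1, false⟩, true), (⟨6, 1, 0, true⟩, false), (⟨7, 0, 1, true⟩, true), (⟨10, 0, 1, false⟩, false), (⟨14, 1, 0, false⟩, true), (⟨0, 0, 1, true⟩, false), (⟨1, 1, 0, true⟩, true), (⟨4, 1, 0, false⟩, true), (⟨5, 0, 1, false⟩, false), (⟨6, 1, 0, true⟩, true), (⟨7, 0, 1, true⟩, false)]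

def l11 : List (End 2) :=
  [(⟨0, 0, 1, true⟩, true), (⟨12, 0, 0, true⟩, true), (⟨13, 0, 0, false⟩, true), (⟨1, 1, 0, true⟩, false), (⟨10, 0, 1, false⟩, true), (⟨14, 1, 0, false⟩, false), (⟨12, 0, 0, true⟩, false), (⟨13, 0, 0, false⟩, false), (⟨4, 1, 0, false⟩, false), (⟨5, 0, 1, false⟩, true), (⟨6, 1, 0, true⟩, false), (⟨7, 0, 1, true⟩, true), (⟨10, 0, 1, false⟩, false), (⟨14, 1, 0, false⟩, true), (⟨0, 0, 1, true⟩, false), (⟨1, 1, 0, true⟩, true), (⟨4, 1, 0, false⟩, true), (⟨5, 0, 1, false⟩, false), (⟨6, 1, 0, true⟩, true), (⟨7, 0, 1, true⟩, false)]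

def l12 : List (End 2) :=
  [(⟨0, 0, 1, true⟩, true), (⟨1, 1, 0, true⟩, false), (⟨10, 0, 1, false⟩, true), (⟨14, 1, 0, false⟩, false), (⟨4, 1, 0, false⟩, false), (⟨5, 0, 1, false⟩, true), (⟨6, 1, 0, true⟩, false), (⟨7, 0, 1, true⟩, true), (⟨10, 0, 1, false⟩, false), (⟨14, 1, 0, false⟩, true), (⟨0, 0, 1, true⟩, false), (⟨1, 1, 0, true⟩, true), (⟨4, 1, 0, false⟩, true), (⟨5, 0, 1, false⟩, false), (⟨6, 1, 0, true⟩, true), (⟨7, 0, 1, true⟩, false)]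

def l13 : List (End 2) :=
  [(⟨0, 0, 1, true⟩, true), (⟨1, 1, 0, true⟩, false), (⟨10, 0, 1, false⟩, true), (⟨14, 1, 0, false⟩, false), (⟨21, 1, 0, false⟩, false), (⟨20, 1, 0, true⟩, false), (⟨4, 1, 0, false⟩, false), (⟨5, 0, 1, false⟩, true), (⟨6, 1, 0, true⟩, false), (⟨7, 0, 1, true⟩, true), (⟨10, 0, 1, false⟩, false), (⟨14, 1, 0, false⟩, true), (⟨0, 0, 1, true⟩, false), (⟨1, 1, 0, true⟩, true), (⟨21, 1, 0, false⟩, true), (⟨20, 1, 0, true⟩, true), (⟨4, 1, 0, false⟩, true), (⟨5, 0, 1, false⟩, false), (⟨6, 1, 0, true⟩, true), (⟨7, 0, 1, true⟩, false)]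

def l14 : List (End 2) :=
  [(⟨0, 0, 1, true⟩, true), (⟨1, 1, 0, true⟩, false), (⟨10, 0, 1, false⟩, true), (⟨14, 1, 0, false⟩, false), (⟨21, 1, 0, false⟩, false), (⟨20, 1, 0, true⟩, false), (⟨4, 1, 0, false⟩, false), (⟨5, 0, 1, false⟩, true), (⟨6, 1, 0, true⟩, false), (⟨7, 0, 1, true⟩, true), (⟨10, 0, 1, false⟩, false), (⟨23, 1, 1, true⟩, true), (⟨22, 1, 1, false⟩, true), (⟨14, 1, 0, false⟩, true), (⟨0, 0, 1, true⟩, false), (⟨1, 1, 0, true⟩, true), (⟨23, 1, 1, true⟩, false), (⟨22, 1, 1, false⟩, false), (⟨21, 1, 0, false⟩, true), (⟨20, 1, 0, true⟩, true), (⟨4, 1, 0, false⟩, true), (⟨5, 0, 1, false⟩, false), (⟨6, 1, 0, true⟩, true), (⟨7, 0, 1, true⟩, false)]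

def l15 : List (End 2) :=
  [(⟨0, 0, 1, true⟩, true), (⟨1, 1, 0, true⟩, false), (⟨10, 0, 1, false⟩, true), (⟨21, 1, 0, false⟩, false), (⟨14, 1, 0, false⟩, false), (⟨20, 1, 0, true⟩, false), (⟨4, 1, 0, false⟩, false), (⟨5, 0, 1, false⟩, true), (⟨6, 1, 0, true⟩, false), (⟨7, 0, 1, true⟩, true), (⟨10, 0, 1, false⟩, false), (⟨23, 1, 1, true⟩, true), (⟨14, 1, 0, false⟩, true), (⟨22, 1, 1, false⟩, true), (⟨0, 0, 1, true⟩, false), (⟨1, 1, 0, true⟩, true), (⟨23, 1, 1, true⟩, false), (⟨21, 1, 0, false⟩, true), (⟨22, 1, 1, false⟩, false), (⟨20, 1, 0, true⟩, true), (⟨4, 1, 0, false⟩, true), (⟨5, 0, 1, false⟩, false), (⟨6, 1, 0, true⟩, true), (⟨7, 0, 1, true⟩, false)]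

def l16 : List (End 2) :=
  [(⟨0, 0, 1, true⟩, true), (⟨1, 1, 0, true⟩, false), (⟨10, 0, 1, false⟩, true), (⟨21, 1, 0, false⟩, false), (⟨14, 1, 0, false⟩, false), (⟨20, 1, 0, true⟩, false), (⟨4, 1, 0, false⟩, false), (⟨5, 0, 1, false⟩, true), (⟨6, 1, 0, true⟩, false), (⟨7, 0, 1, true⟩, true), (⟨10, 0, 1, false⟩, false), (⟨23, 1, 1, false⟩, false), (⟨14, 1, 0, false⟩, true), (⟨22, 1, 1, false⟩, true), (⟨0, 0, 1, true⟩, false), (⟨1, 1, 0, true⟩, true), (⟨23, 1, 1, false⟩, true), (⟨21, 1, 0, false⟩, true), (⟨22, 1, 1, false⟩, false), (⟨20, 1, 0, true⟩, true), (⟨4, 1, 0, false⟩, true), (⟨5, 0, 1, false⟩, false), (⟨6, 1, 0, true⟩, true), (⟨7, 0, 1, true⟩, false)]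

def l17 : List (End 2) :=
  [(⟨0, 0, 1, true⟩, true), (⟨10, 0, 1, false⟩, true), (⟨1, 1, 0, true⟩, false), (⟨21, 1, 0, false⟩, false), (⟨14, 1, 0, false⟩, false), (⟨20, 1, 0, true⟩, false), (⟨4, 1, 0, false⟩, false), (⟨5, 0, 1, false⟩, true), (⟨6, 1, 0, true⟩, false), (⟨7, 0, 1, true⟩, true), (⟨23, 1, 1, false⟩, false), (⟨10, 0, 1, false⟩, false), (⟨14, 1, 0, false⟩, true), (⟨22, 1, 1, false⟩, true), (⟨0, 0, 1, true⟩, false), (⟨23, 1, 1, false⟩, true), (⟨1, 1, 0, true⟩, true), (⟨21, 1, 0, false⟩, true), (⟨22, 1, 1, false⟩, false), (⟨20, 1, 0, true⟩, true), (⟨4, 1, 0, false⟩, true), (⟨5, 0, 1, false⟩, false), (⟨6, 1, 0, true⟩, true), (⟨7, 0, 1, true⟩, false)]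

def l18 : List (End 2) :=
  [(⟨0, 0, 1, true⟩, true), (⟨10, 0, 1, false⟩, true), (⟨14, 1, 0, false⟩, false), (⟨20, 1, 0, true⟩, false), (⟨4, 1, 0, false⟩, false), (⟨5, 0, 1, false⟩, true), (⟨6, 1, 0, true⟩, false), (⟨7, 0, 1, true⟩, true), (⟨23, 1, 1, false⟩, false), (⟨10, 0, 1, false⟩, false), (⟨14, 1, 0, false⟩, true), (⟨22, 1, 1, false⟩, true), (⟨0, 0, 1, true⟩, false), (⟨23, 1, 1, false⟩, true), (⟨22, 1, 1, false⟩, false), (⟨20, 1, 0, true⟩, true), (⟨4, 1, 0, false⟩, true), (⟨5, 0, 1, false⟩, false), (⟨6, 1, 0, true⟩, true), (⟨7, 0, 1, true⟩, false)]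

def l19 : List (End 2) :=
  [(⟨0, 0, 1, true⟩, true), (⟨10, 0, 1, false⟩, true), (⟨25, 0, 1, false⟩, true), (⟨24, 0, 1, true⟩, true), (⟨14, 1, 0, false⟩, false), (⟨20, 1, 0, true⟩, false), (⟨4, 1, 0, false⟩, false), (⟨5, 0, 1, false⟩, true), (⟨6, 1, 0, true⟩, false), (⟨7, 0, 1, true⟩, true), (⟨23, 1, 1, false⟩, false), (⟨10, 0, 1, false⟩, false), (⟨14, 1, 0, false⟩, true), (⟨22, 1, 1, false⟩, true), (⟨0, 0, 1, true⟩, false), (⟨23, 1, 1, false⟩, true), (⟨25, 0, 1, false⟩, false), (⟨24, 0, 1, true⟩, false), (⟨22, 1, 1, false⟩, false), (⟨20, 1, 0, true⟩, true), (⟨4, 1, 0, false⟩, true), (⟨5, 0, 1, false⟩, false), (⟨6, 1, 0, true⟩, true), (⟨7, 0, 1, true⟩, false)]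

def l20 : List (End 2) :=
  [(⟨0, 0, 1, true⟩, true), (⟨25, 0, 1, false⟩, true), (⟨10, 0, 1, false⟩, true), (⟨24, 0, 1, true⟩, true), (⟨14, 1, 0, false⟩, false), (⟨20, 1, 0, true⟩, false), (⟨4, 1, 0, false⟩, false), (⟨5, 0, 1, false⟩, true), (⟨6, 1, 0, true⟩, false), (⟨7, 0, 1, true⟩, true), (⟨10, 0, 1, false⟩, false), (⟨23, 1, 1, false⟩, false), (⟨14, 1, 0, false⟩, true), (⟨22, 1, 1, false⟩, true), (⟨0, 0, 1, true⟩, false), (⟨25, 0, 1, false⟩, false), (⟨23, 1, 1, false⟩, true), (⟨24, 0, 1, true⟩, false), (⟨22, 1, 1, false⟩, false), (⟨20, 1, 0, true⟩, true), (⟨4, 1, 0, false⟩, true), (⟨5, 0, 1, false⟩, false), (⟨6, 1, 0, true⟩, true), (⟨7, 0, 1, true⟩, false)]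

def l21 : List (End 2) :=
  [(⟨10, 0, 1, false⟩, true), (⟨24, 0, 1, true⟩, true), (⟨14, 1, 0, false⟩, false), (⟨20, 1, 0, true⟩, false), (⟨4, 1, 0, false⟩, false), (⟨5, 0, 1, false⟩, true), (⟨6, 1, 0, true⟩, false), (⟨7, 0, 1, true⟩, true), (⟨10, 0, 1, false⟩, false), (⟨23, 1, 1, false⟩, false), (⟨14, 1, 0, false⟩, true), (⟨22, 1, 1, false⟩, true), (⟨23, 1, 1, false⟩, true), (⟨24, 0, 1, true⟩, false), (⟨22, 1, 1, false⟩, false), (⟨20, 1, 0, true⟩, true), (⟨4, 1, 0, false⟩, true), (⟨5, 0, 1, false⟩, false), (⟨6, 1, 0, true⟩, true), (⟨7, 0, 1, true⟩, false)]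

def l22 : List (End 2) :=
  [(⟨10, 0, 1, false⟩, true), (⟨14, 1, 0, false⟩, false), (⟨24, 0, 1, true⟩, true), (⟨20, 1, 0, true⟩, false), (⟨4, 1, 0, false⟩, false), (⟨5, 0, 1, false⟩, true), (⟨6, 1, 0, true⟩, false), (⟨7, 0, 1, true⟩, true), (⟨10, 0, 1, false⟩, false), (⟨23, 1, 1, false⟩, false), (⟨22, 1, 1, false⟩, true), (⟨14, 1, 0, false⟩, true), (⟨23, 1, 1, false⟩, true), (⟨22, 1, 1, false⟩, false), (⟨24, 0, 1, true⟩, false), (⟨20, 1, 0, true⟩, true), (⟨4, 1, 0, false⟩, true), (⟨5, 0, 1, false⟩, false), (⟨6, 1, 0, true⟩, true), (⟨7, 0, 1, true⟩, false)]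

def l23 : List (End 2) :=
  [(⟨10, 0, 1, false⟩, true), (⟨14, 1, 0, false⟩, false), (⟨24, 0, 1, true⟩, true), (⟨20, 1, 0, true⟩, false), (⟨4, 1, 0, false⟩, false), (⟨5, 0, 1, false⟩, true), (⟨6, 1, 0, true⟩, false), (⟨7, 0, 1, true⟩, true), (⟨10, 0, 1, false⟩, false), (⟨23, 1, 1, true⟩, true), (⟨22, 1, 1, false⟩, true), (⟨14, 1, 0, false⟩, true), (⟨23, 1, 1, true⟩, false), (⟨22, 1, 1, false⟩, false), (⟨24, 0, 1, true⟩, false), (⟨20, 1, 0, true⟩, true), (⟨4, 1, 0, false⟩, true), (⟨5, 0, 1, false⟩, false), (⟨6, 1, 0, true⟩, true), (⟨7, 0, 1, true⟩, false)]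

def l24 : List (End 2) :=
  [(⟨10, 0, 1, false⟩, true), (⟨14, 1, 0, false⟩, false), (⟨24, 0, 1, true⟩, true), (⟨20, 1, 0, true⟩, false), (⟨4, 1, 0, false⟩, false), (⟨5, 0, 1, false⟩, true), (⟨6, 1, 0, true⟩, false), (⟨7, 0, 1, true⟩, true), (⟨10, 0, 1, false⟩, false), (⟨14, 1, 0, false⟩, true), (⟨24, 0, 1, true⟩, false), (⟨20, 1, 0, true⟩, true), (⟨4, 1, 0, false⟩, true), (⟨5, 0, 1, false⟩, false), (⟨6, 1, 0, true⟩, true), (⟨7, 0, 1, true⟩, false)]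

def l25 : List (End 2) :=
  [(⟨10, 0, 1, false⟩, true), (⟨14, 1, 0, false⟩, false), (⟨24, 0, 1, true⟩, true), (⟨5, 0, 1, false⟩, true), (⟨6, 1, 0, true⟩, false), (⟨7, 0, 1, true⟩, true), (⟨10, 0, 1, false⟩, false), (⟨14, 1, 0, false⟩, true), (⟨24, 0, 1, true⟩, false), (⟨5, 0, 1, false⟩, false), (⟨6, 1, 0, true⟩, true), (⟨7, 0, 1, true⟩, false)]

def l26 : List (End 2) :=
  [(⟨10, 0, 1, false⟩, true), (⟨14, 1, 0, false⟩, false), (⟨6, 1, 0, true⟩, false), (⟨7, 0, 1, true⟩, true), (⟨10, 0, 1, false⟩, false), (⟨14, 1, 0, false⟩, true), (⟨6, 1, 0, true⟩, true), (⟨7, 0, 1, true⟩, false)]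

def l27 : List (End 2) :=
  [(⟨10, 0, 1, false⟩, true), (⟨7, 0, 1, true⟩, true), (⟨10, 0, 1, false⟩, false), (⟨7, 0, 1, true⟩, false)]

def l28 : List (End 2) :=
  []

theorem g0 : IsGauss l0 := by unfold IsGauss; decide

def d0 : Diagram 2 := ⟨l0, g0⟩

theorem g1 : IsGauss l1 := by unfold IsGauss; decide

def d1 : Diagram 2 := ⟨l1, g1⟩

theorem g2 : IsGauss l2 := by unfold IsGauss; decide

def d2 : Diagram 2 := ⟨l2, g2⟩

theorem g3 : IsGauss l3 := by unfold IsGauss; decide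

def d3 : Diagram 2 := ⟨l3, g3⟩

theorem g4 : IsGauss l4 := by unfold IsGauss; decide

def d4 : Diagram 2 := ⟨l4, g4⟩

theorem g5 : IsGauss l5 := by unfold IsGauss; decide

def d5 : Diagram 2 := ⟨l5, g5⟩

theorem g6 : IsGauss l6 := by unfold IsGauss; decide

def d6 : Diagram 2 := ⟨l6, g6⟩

theorem g7 : IsGauss l7 := by unfold IsGauss; decide

def d7 : Diagram 2 := ⟨l7, g7⟩

theorem g8 : IsGauss l8 := by unfold IsGauss; decide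

def d8 : Diagram 2 := ⟨l8, g8⟩

theorem g9 : IsGauss l9 := by unfold IsGauss; decide

def d9 : Diagram 2 := ⟨l9, g9⟩

theorem g10 : IsGauss l10 := by unfold IsGauss; decide

def d10 : Diagram 2 := ⟨l10, g10⟩

theorem g11 : IsGauss l11 := by unfold IsGauss; decide

def d11 : Diagram 2 := ⟨l11, g11⟩

theorem g12 : IsGauss l12 := by unfold IsGauss; decide

def d12 : Diagram 2 := ⟨l12, g12⟩

theorem g13 : IsGauss l13 := by unfold IsGauss; decide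

def d13 : Diagram 2 := ⟨l13, g13⟩

theorem g14 : IsGauss l14 := by unfold IsGauss; decide

def d14 : Diagram 2 := ⟨l14, g14⟩

theorem g15 : IsGauss l15 := by unfold IsGauss; decide

def d15 : Diagram 2 := ⟨l15, g15⟩

theorem g16 : IsGauss l16 := by unfold IsGauss; decide

def d16 : Diagram 2 := ⟨l16, g16⟩

theorem g17 : IsGauss l17 := by unfold IsGauss; decide

def d17 : Diagram 2 := ⟨l17, g17⟩

theorem g18 : IsGauss l18 := by unfold IsGauss; decide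

def d18 : Diagram 2 := ⟨l18, g18⟩

theorem g19 : IsGauss l19 := by unfold IsGauss; decide

def d19 : Diagram 2 := ⟨l19, g19⟩

theorem g20 : IsGauss l20 := by unfold IsGauss; decide

def d20 : Diagram 2 := ⟨l20, g20⟩

theorem g21 : IsGauss l21 := by unfold IsGauss; decide

def d21 : Diagram 2 := ⟨l21, g21⟩

theorem g22 : IsGauss l22 := by unfold IsGauss; decide

def d22 : Diagram 2 := ⟨l22, g22⟩

theorem g23 : IsGauss l23 := by unfold IsGauss; decide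

def d23 : Diagram 2 := ⟨l23, g23⟩

theorem g24 : IsGauss l24 := by unfold IsGauss; decide

def d24 : Diagram 2 := ⟨l24, g24⟩

theorem g25 : IsGauss l25 := by unfold IsGauss; decide

def d25 : Diagram 2 := ⟨l25, g25⟩

theorem g26 : IsGauss l26 := by unfold IsGauss; decide

def d26 : Diagram 2 := ⟨l26, g26⟩

theorem g27 : IsGauss l27 := by unfold IsGauss; decide

def d27 : Diagram 2 := ⟨l27, g27⟩

theorem g28 : IsGauss l28 := by unfold IsGauss; decide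

def d28 : Diagram 2 := ⟨l28, g28⟩

theorem stepR (v w : Diagram 2) (h : Reidemeister v.1 w.1) :
    (Quot.mk _ v : VSLsc 2) = Quot.mk _ w := Quot.sound (Or.inl h)

theorem stepS (v w : Diagram 2) (h : SelfCrossingChange v.1 w.1) :
    (Quot.mk _ v : VSLsc 2) = Quot.mk _ w := Quot.sound (Or.inr h)

theorem e0 : (Quot.mk _ d0 : VSLsc 2) = Quot.mk _ d1 :=
  (stepR d1 d0 (
    Reidemeister.r2_parallel ⟨10, 0, 1, false⟩ ⟨11, 0, 1, true⟩ rfl rfl (by decide) true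
      [(⟨0, 0, 1, true⟩, true), (⟨1, 1, 0, true⟩, false)]
      [(⟨2, 0, 1, false⟩, true), (⟨3, 1, 0, false⟩, false), (⟨4, 1, 0, false⟩, false), (⟨5, 0, 1, false⟩, true), (⟨6, 1, 0, true⟩, false), (⟨7, 0, 1, true⟩, true)]
      [(⟨0, 0, 1, true⟩, false), (⟨1, 1, 0, true⟩, true), (⟨2, 0, 1, false⟩, false), (⟨3, 1, 0, false⟩, true), (⟨4, 1, 0, false⟩, true), (⟨5, 0, 1, false⟩, false), (⟨6, 1, 0, true⟩, true), (⟨7, 0, 1, true⟩, false)])).symm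

theorem e1 : (Quot.mk _ d1 : VSLsc 2) = Quot.mk _ d2 :=
  (stepR d2 d1 (
    Reidemeister.r2_parallel ⟨12, 0, 0, true⟩ ⟨13, 0, 0, false⟩ rfl rfl (by decide) true
      [(⟨0, 0, 1, true⟩, true)]
      [(⟨1, 1, 0, true⟩, false), (⟨10, 0, 1, false⟩, true), (⟨11, 0, 1, true⟩, true)]
      [(⟨2, 0, 1, false⟩, true), (⟨3, 1, 0, false⟩, false), (⟨4, 1, 0, false⟩, false), (⟨5, 0, 1, false⟩, true), (⟨6, 1, 0, true⟩, false), (⟨7, 0, 1, true⟩, true), (⟨10, 0, 1, false⟩, false), (⟨11, 0, 1, true⟩, false), (⟨0, 0, 1, true⟩, false), (⟨1, 1, 0, true⟩, true), (⟨2, 0, 1, false⟩, false), (⟨3, 1, 0, false⟩, true), (⟨4, 1, 0, false⟩, true), (⟨5, 0, 1, false⟩, false), (⟨6, 1, 0, true⟩, true), (⟨7, 0, 1, true⟩, false)])).symm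

theorem e2 : (Quot.mk _ d2 : VSLsc 2) = Quot.mk _ d3 :=
  stepR d2 d3 (
    Reidemeister.r3 false ⟨12, 0, 0, true⟩ ⟨0, 0, 1, true⟩ ⟨11, 0, 1, true⟩ rfl rfl rfl
      ((⟨0, 0, 1, true⟩, true), (⟨12, 0, 0, true⟩, true))
      ((⟨11, 0, 1, true⟩, true), (⟨12, 0, 0, true⟩, false))
      ((⟨11, 0, 1, true⟩, false), (⟨0, 0, 1, true⟩, false))
      (by decide)
      []
      [(⟨13, 0, 0, false⟩, true), (⟨1, 1, 0, true⟩, false), (⟨10, 0, 1, false⟩, true)]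
      [(⟨13, 0, 0, false⟩, false), (⟨2, 0, 1, false⟩, true), (⟨3, 1, 0, false⟩, false), (⟨4, 1, 0, false⟩, false), (⟨5, 0, 1, false⟩, true), (⟨6, 1, 0, true⟩, false), (⟨7, 0, 1, true⟩, true), (⟨10, 0, 1, false⟩, false)]
      [(⟨1, 1, 0, true⟩, true), (⟨2, 0, 1, false⟩, false), (⟨3, 1, 0, false⟩, true), (⟨4, 1, 0, false⟩, true), (⟨5, 0, 1, false⟩, false), (⟨6, 1, 0, true⟩, true), (⟨7, 0, 1, true⟩, false)])

theorem e3 : (Quot.mk _ d3 : VSLsc 2) = Quot.mk _ d4 :=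
  stepS d3 d4 (
    SelfCrossingChange.mk ⟨13, 0, 0, false⟩ rfl true
      [(⟨12, 0, 0, true⟩, true), (⟨0, 0, 1, true⟩, true)]
      [(⟨1, 1, 0, true⟩, false), (⟨10, 0, 1, false⟩, true), (⟨12, 0, 0, true⟩, false), (⟨11, 0, 1, true⟩, true)]
      [(⟨2, 0, 1, false⟩, true), (⟨3, 1, 0, false⟩, false), (⟨4, 1, 0, false⟩, false), (⟨5, 0, 1, false⟩, true), (⟨6, 1, 0, true⟩, false), (⟨7, 0, 1, true⟩, true), (⟨10, 0, 1, false⟩, false), (⟨0, 0, 1, true⟩, false), (⟨11, 0, 1, true⟩, false), (⟨1, 1, 0, true⟩, true), (⟨2, 0, 1, false⟩, false), (⟨3, 1, 0, false⟩, true), (⟨4, 1, 0, false⟩, true), (⟨5, 0, 1, false⟩, false), (⟨6, 1, 0, true⟩, true), (⟨7, 0, 1, true⟩, false)])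

theorem e4 : (Quot.mk _ d4 : VSLsc 2) = Quot.mk _ d5 :=
  stepR d4 d5 (
    Reidemeister.r3 true ⟨2, 0, 1, false⟩ ⟨13, 0, 0, true⟩ ⟨1, 1, 0, true⟩ rfl rfl rfl
      ((⟨13, 0, 0, true⟩, false), (⟨1, 1, 0, true⟩, false))
      ((⟨13, 0, 0, true⟩, true), (⟨2, 0, 1, false⟩, true))
      ((⟨1, 1, 0, true⟩, true), (⟨2, 0, 1, false⟩, false))
      (by decide)
      [(⟨12, 0, 0, true⟩, true), (⟨0, 0, 1, true⟩, true)]
      [(⟨10, 0, 1, false⟩, true), (⟨12, 0, 0, true⟩, false), (⟨11, 0, 1, true⟩, true)]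
      [(⟨3, 1, 0, false⟩, false), (⟨4, 1, 0, false⟩, false), (⟨5, 0, 1, false⟩, true), (⟨6, 1, 0, true⟩, false), (⟨7, 0, 1, true⟩, true), (⟨10, 0, 1, false⟩, false), (⟨0, 0, 1, true⟩, false), (⟨11, 0, 1, true⟩, false)]
      [(⟨3, 1, 0, false⟩, true), (⟨4, 1, 0, false⟩, true), (⟨5, 0, 1, false⟩, false), (⟨6, 1, 0, true⟩, true), (⟨7, 0, 1, true⟩, false)])

theorem e5 : (Quot.mk _ d5 : VSLsc 2) = Quot.mk _ d6 :=
  stepR d5 d6 (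
    Reidemeister.r2_parallel ⟨11, 0, 1, true⟩ ⟨2, 0, 1, false⟩ rfl rfl (by decide) true
      [(⟨12, 0, 0, true⟩, true), (⟨0, 0, 1, true⟩, true), (⟨1, 1, 0, true⟩, false), (⟨13, 0, 0, true⟩, false), (⟨10, 0, 1, false⟩, true), (⟨12, 0, 0, true⟩, false)]
      [(⟨13, 0, 0, true⟩, true), (⟨3, 1, 0, false⟩, false), (⟨4, 1, 0, false⟩, false), (⟨5, 0, 1, false⟩, true), (⟨6, 1, 0, true⟩, false), (⟨7, 0, 1, true⟩, true), (⟨10, 0, 1, false⟩, false), (⟨0, 0, 1, true⟩, false)]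
      [(⟨1, 1, 0, true⟩, true), (⟨3, 1, 0, false⟩, true), (⟨4, 1, 0, false⟩, true), (⟨5, 0, 1, false⟩, false), (⟨6, 1, 0, true⟩, true), (⟨7, 0, 1, true⟩, false)])

theorem e6 : (Quot.mk _ d6 : VSLsc 2) = Quot.mk _ d7 :=
  (stepR d7 d6 (
    Reidemeister.r2_parallel ⟨14, 1, 0, false⟩ ⟨15, 1, 0, true⟩ rfl rfl (by decide) false
      [(⟨12, 0, 0, true⟩, true), (⟨0, 0, 1, true⟩, true), (⟨1, 1, 0, true⟩, false), (⟨13, 0, 0, true⟩, false), (⟨10, 0, 1, false⟩, true), (⟨12, 0, 0, true⟩, false)]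
      [(⟨13, 0, 0, true⟩, true), (⟨3, 1, 0, false⟩, false), (⟨4, 1, 0, false⟩, false), (⟨5, 0, 1, false⟩, true), (⟨6, 1, 0, true⟩, false), (⟨7, 0, 1, true⟩, true), (⟨10, 0, 1, false⟩, false), (⟨0, 0, 1, true⟩, false)]
      [(⟨1, 1, 0, true⟩, true), (⟨3, 1, 0, false⟩, true), (⟨4, 1, 0, false⟩, true), (⟨5, 0, 1, false⟩, false), (⟨6, 1, 0, true⟩, true), (⟨7, 0, 1, true⟩, false)])).symm

theorem e7 : (Quot.mk _ d7 : VSLsc 2) = Quot.mk _ d8 :=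
  stepR d7 d8 (
    Reidemeister.r3 true ⟨15, 1, 0, true⟩ ⟨1, 1, 0, true⟩ ⟨13, 0, 0, true⟩ rfl rfl rfl
      ((⟨1, 1, 0, true⟩, false), (⟨13, 0, 0, true⟩, false))
      ((⟨15, 1, 0, true⟩, false), (⟨13, 0, 0, true⟩, true))
      ((⟨15, 1, 0, true⟩, true), (⟨1, 1, 0, true⟩, true))
      (by decide)
      [(⟨12, 0, 0, true⟩, true), (⟨0, 0, 1, true⟩, true)]
      [(⟨10, 0, 1, false⟩, true), (⟨12, 0, 0, true⟩, false), (⟨14, 1, 0, false⟩, false)]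
      [(⟨3, 1, 0, false⟩, false), (⟨4, 1, 0, false⟩, false), (⟨5, 0, 1, false⟩, true), (⟨6, 1, 0, true⟩, false), (⟨7, 0, 1, true⟩, true), (⟨10, 0, 1, false⟩, false), (⟨0, 0, 1, true⟩, false), (⟨14, 1, 0, false⟩, true)]
      [(⟨3, 1, 0, false⟩, true), (⟨4, 1, 0, false⟩, true), (⟨5, 0, 1, false⟩, false), (⟨6, 1, 0, true⟩, true), (⟨7, 0, 1, true⟩, false)])

theorem e8 : (Quot.mk _ d8 : VSLsc 2) = Quot.mk _ d9 :=
  stepR d8 d9 (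
    Reidemeister.r2_parallel ⟨15, 1, 0, true⟩ ⟨3, 1, 0, false⟩ rfl rfl (by decide) false
      [(⟨12, 0, 0, true⟩, true), (⟨0, 0, 1, true⟩, true), (⟨13, 0, 0, true⟩, false), (⟨1, 1, 0, true⟩, false), (⟨10, 0, 1, false⟩, true), (⟨12, 0, 0, true⟩, false), (⟨14, 1, 0, false⟩, false), (⟨13, 0, 0, true⟩, true)]
      [(⟨4, 1, 0, false⟩, false), (⟨5, 0, 1, false⟩, true), (⟨6, 1, 0, true⟩, false), (⟨7, 0, 1, true⟩, true), (⟨10, 0, 1, false⟩, false), (⟨0, 0, 1, true⟩, false), (⟨14, 1, 0, false⟩, true), (⟨1, 1, 0, true⟩, true)]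
      [(⟨4, 1, 0, false⟩, true), (⟨5, 0, 1, false⟩, false), (⟨6, 1, 0, true⟩, true), (⟨7, 0, 1, true⟩, false)])

theorem e9 : (Quot.mk _ d9 : VSLsc 2) = Quot.mk _ d10 :=
  stepR d9 d10 (
    Reidemeister.r3 true ⟨0, 0, 1, true⟩ ⟨12, 0, 0, true⟩ ⟨14, 1, 0, false⟩ rfl rfl rfl
      ((⟨12, 0, 0, true⟩, true), (⟨0, 0, 1, true⟩, true))
      ((⟨12, 0, 0, true⟩, false), (⟨14, 1, 0, false⟩, false))
      ((⟨0, 0, 1, true⟩, false), (⟨14, 1, 0, false⟩, true))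
      (by decide)
      []
      [(⟨13, 0, 0, true⟩, false), (⟨1, 1, 0, true⟩, false), (⟨10, 0, 1, false⟩, true)]
      [(⟨13, 0, 0, true⟩, true), (⟨4, 1, 0, false⟩, false), (⟨5, 0, 1, false⟩, true), (⟨6, 1, 0, true⟩, false), (⟨7, 0, 1, true⟩, true), (⟨10, 0, 1, false⟩, false)]
      [(⟨1, 1, 0, true⟩, true), (⟨4, 1, 0, false⟩, true), (⟨5, 0, 1, false⟩, false), (⟨6, 1, 0, true⟩, true), (⟨7, 0, 1, true⟩, false)])

theorem e10 : (Quot.mk _ d10 : VSLsc 2) = Quot.mk _ d11 :=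
  stepS d10 d11 (
    SelfCrossingChange.mk ⟨13, 0, 0, true⟩ rfl false
      [(⟨0, 0, 1, true⟩, true), (⟨12, 0, 0, true⟩, true)]
      [(⟨1, 1, 0, true⟩, false), (⟨10, 0, 1, false⟩, true), (⟨14, 1, 0, false⟩, false), (⟨12, 0, 0, true⟩, false)]
      [(⟨4, 1, 0, false⟩, false), (⟨5, 0, 1, false⟩, true), (⟨6, 1, 0, true⟩, false), (⟨7, 0, 1, true⟩, true), (⟨10, 0, 1, false⟩, false), (⟨14, 1, 0, false⟩, true), (⟨0, 0, 1, true⟩, false), (⟨1, 1, 0, true⟩, true), (⟨4, 1, 0, false⟩, true), (⟨5, 0, 1, false⟩, false), (⟨6, 1, 0, true⟩, true), (⟨7, 0, 1, true⟩, false)])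

theorem e11 : (Quot.mk _ d11 : VSLsc 2) = Quot.mk _ d12 :=
  stepR d11 d12 (
    Reidemeister.r2_parallel ⟨12, 0, 0, true⟩ ⟨13, 0, 0, false⟩ rfl rfl (by decide) true
      [(⟨0, 0, 1, true⟩, true)]
      [(⟨1, 1, 0, true⟩, false), (⟨10, 0, 1, false⟩, true), (⟨14, 1, 0, false⟩, false)]
      [(⟨4, 1, 0, false⟩, false), (⟨5, 0, 1, false⟩, true), (⟨6, 1, 0, true⟩, false), (⟨7, 0, 1, true⟩, true), (⟨10, 0, 1, false⟩, false), (⟨14, 1, 0, false⟩, true), (⟨0, 0, 1, true⟩, false), (⟨1, 1, 0, true⟩, true), (⟨4, 1, 0, false⟩, true), (⟨5, 0, 1, false⟩, false), (⟨6, 1, 0, true⟩, true), (⟨7, 0, 1, true⟩, false)])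

theorem e12 : (Quot.mk _ d12 : VSLsc 2) = Quot.mk _ d13 :=
  (stepR d13 d12 (
    Reidemeister.r2_parallel ⟨21, 1, 0, false⟩ ⟨20, 1, 0, true⟩ rfl rfl (by decide) false
      [(⟨0, 0, 1, true⟩, true), (⟨1, 1, 0, true⟩, false), (⟨10, 0, 1, false⟩, true), (⟨14, 1, 0, false⟩, false)]
      [(⟨4, 1, 0, false⟩, false), (⟨5, 0, 1, false⟩, true), (⟨6, 1, 0, true⟩, false), (⟨7, 0, 1, true⟩, true), (⟨10, 0, 1, false⟩, false), (⟨14, 1, 0, false⟩, true), (⟨0, 0, 1, true⟩, false), (⟨1, 1, 0, true⟩, true)]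
      [(⟨4, 1, 0, false⟩, true), (⟨5, 0, 1, false⟩, false), (⟨6, 1, 0, true⟩, true), (⟨7, 0, 1, true⟩, false)])).symm

theorem e13 : (Quot.mk _ d13 : VSLsc 2) = Quot.mk _ d14 :=
  (stepR d14 d13 (
    Reidemeister.r2_parallel ⟨23, 1, 1, true⟩ ⟨22, 1, 1, false⟩ rfl rfl (by decide) true
      [(⟨0, 0, 1, true⟩, true), (⟨1, 1, 0, true⟩, false), (⟨10, 0, 1, false⟩, true), (⟨14, 1, 0, false⟩, false), (⟨21, 1, 0, false⟩, false), (⟨20, 1, 0, true⟩, false), (⟨4, 1, 0, false⟩, false), (⟨5, 0, 1, false⟩, true), (⟨6, 1, 0, true⟩, false), (⟨7, 0, 1, true⟩, true), (⟨10, 0, 1, false⟩, false)]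
      [(⟨14, 1, 0, false⟩, true), (⟨0, 0, 1, true⟩, false), (⟨1, 1, 0, true⟩, true)]
      [(⟨21, 1, 0, false⟩, true), (⟨20, 1, 0, true⟩, true), (⟨4, 1, 0, false⟩, true), (⟨5, 0, 1, false⟩, false), (⟨6, 1, 0, true⟩, true), (⟨7, 0, 1, true⟩, false)])).symm

theorem e14 : (Quot.mk _ d14 : VSLsc 2) = Quot.mk _ d15 :=
  stepR d14 d15 (
    Reidemeister.r3 false ⟨22, 1, 1, false⟩ ⟨14, 1, 0, false⟩ ⟨21, 1, 0, false⟩ rfl rfl rfl
      ((⟨14, 1, 0, false⟩, false), (⟨21, 1, 0, false⟩, false))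
      ((⟨22, 1, 1, false⟩, true), (⟨14, 1, 0, false⟩, true))
      ((⟨22, 1, 1, false⟩, false), (⟨21, 1, 0, false⟩, true))
      (by decide)
      [(⟨0, 0, 1, true⟩, true), (⟨1, 1, 0, true⟩, false), (⟨10, 0, 1, false⟩, true)]
      [(⟨20, 1, 0, true⟩, false), (⟨4, 1, 0, false⟩, false), (⟨5, 0, 1, false⟩, true), (⟨6, 1, 0, true⟩, false), (⟨7, 0, 1, true⟩, true), (⟨10, 0, 1, false⟩, false), (⟨23, 1, 1, true⟩, true)]
      [(⟨0, 0, 1, true⟩, false), (⟨1, 1, 0, true⟩, true), (⟨23, 1, 1, true⟩, false)]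
      [(⟨20, 1, 0, true⟩, true), (⟨4, 1, 0, false⟩, true), (⟨5, 0, 1, false⟩, false), (⟨6, 1, 0, true⟩, true), (⟨7, 0, 1, true⟩, false)])

theorem e15 : (Quot.mk _ d15 : VSLsc 2) = Quot.mk _ d16 :=
  stepS d15 d16 (
    SelfCrossingChange.mk ⟨23, 1, 1, true⟩ rfl true
      [(⟨0, 0, 1, true⟩, true), (⟨1, 1, 0, true⟩, false), (⟨10, 0, 1, false⟩, true), (⟨21, 1, 0, false⟩, false), (⟨14, 1, 0, false⟩, false), (⟨20, 1, 0, true⟩, false), (⟨4, 1, 0, false⟩, false), (⟨5, 0, 1, false⟩, true), (⟨6, 1, 0, true⟩, false), (⟨7, 0, 1, true⟩, true), (⟨10, 0, 1, false⟩, false)]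
      [(⟨14, 1, 0, false⟩, true), (⟨22, 1, 1, false⟩, true), (⟨0, 0, 1, true⟩, false), (⟨1, 1, 0, true⟩, true)]
      [(⟨21, 1, 0, false⟩, true), (⟨22, 1, 1, false⟩, false), (⟨20, 1, 0, true⟩, true), (⟨4, 1, 0, false⟩, true), (⟨5, 0, 1, false⟩, false), (⟨6, 1, 0, true⟩, true), (⟨7, 0, 1, true⟩, false)])

theorem e16 : (Quot.mk _ d16 : VSLsc 2) = Quot.mk _ d17 :=
  stepR d16 d17 (
    Reidemeister.r3 true ⟨1, 1, 0, true⟩ ⟨23, 1, 1, false⟩ ⟨10, 0, 1, false⟩ rfl rfl rfl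
      ((⟨1, 1, 0, true⟩, false), (⟨10, 0, 1, false⟩, true))
      ((⟨10, 0, 1, false⟩, false), (⟨23, 1, 1, false⟩, false))
      ((⟨1, 1, 0, true⟩, true), (⟨23, 1, 1, false⟩, true))
      (by decide)
      [(⟨0, 0, 1, true⟩, true)]
      [(⟨21, 1, 0, false⟩, false), (⟨14, 1, 0, false⟩, false), (⟨20, 1, 0, true⟩, false), (⟨4, 1, 0, false⟩, false), (⟨5, 0, 1, false⟩, true), (⟨6, 1, 0, true⟩, false), (⟨7, 0, 1, true⟩, true)]
      [(⟨14, 1, 0, false⟩, true), (⟨22, 1, 1, false⟩, true), (⟨0, 0, 1, true⟩, false)]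
      [(⟨21, 1, 0, false⟩, true), (⟨22, 1, 1, false⟩, false), (⟨20, 1, 0, true⟩, true), (⟨4, 1, 0, false⟩, true), (⟨5, 0, 1, false⟩, false), (⟨6, 1, 0, true⟩, true), (⟨7, 0, 1, true⟩, false)])

theorem e17 : (Quot.mk _ d17 : VSLsc 2) = Quot.mk _ d18 :=
  stepR d17 d18 (
    Reidemeister.r2_parallel ⟨1, 1, 0, true⟩ ⟨21, 1, 0, false⟩ rfl rfl (by decide) false
      [(⟨0, 0, 1, true⟩, true), (⟨10, 0, 1, false⟩, true)]
      [(⟨14, 1, 0, false⟩, false), (⟨20, 1, 0, true⟩, false), (⟨4, 1, 0, false⟩, false), (⟨5, 0, 1, false⟩, true), (⟨6, 1, 0, true⟩, false), (⟨7, 0, 1, true⟩, true), (⟨23, 1, 1, false⟩, false), (⟨10, 0, 1, false⟩, false), (⟨14, 1, 0, false⟩, true), (⟨22, 1, 1, false⟩, true), (⟨0, 0, 1, true⟩, false), (⟨23, 1, 1, false⟩, true)]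
      [(⟨22, 1, 1, false⟩, false), (⟨20, 1, 0, true⟩, true), (⟨4, 1, 0, false⟩, true), (⟨5, 0, 1, false⟩, false), (⟨6, 1, 0, true⟩, true), (⟨7, 0, 1, true⟩, false)])

theorem e18 : (Quot.mk _ d18 : VSLsc 2) = Quot.mk _ d19 :=
  (stepR d19 d18 (
    Reidemeister.r2_parallel ⟨25, 0, 1, false⟩ ⟨24, 0, 1, true⟩ rfl rfl (by decide) true
      [(⟨0, 0, 1, true⟩, true), (⟨10, 0, 1, false⟩, true)]
      [(⟨14, 1, 0, false⟩, false), (⟨20, 1, 0, true⟩, false), (⟨4, 1, 0, false⟩, false), (⟨5, 0, 1, false⟩, true), (⟨6, 1, 0, true⟩, false), (⟨7, 0, 1, true⟩, true), (⟨23, 1, 1, false⟩, false), (⟨10, 0, 1, false⟩, false), (⟨14, 1, 0, false⟩, true), (⟨22, 1, 1, false⟩, true), (⟨0, 0, 1, true⟩, false), (⟨23, 1, 1, false⟩, true)]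
      [(⟨22, 1, 1, false⟩, false), (⟨20, 1, 0, true⟩, true), (⟨4, 1, 0, false⟩, true), (⟨5, 0, 1, false⟩, false), (⟨6, 1, 0, true⟩, true), (⟨7, 0, 1, true⟩, false)])).symm

theorem e19 : (Quot.mk _ d19 : VSLsc 2) = Quot.mk _ d20 :=
  stepR d19 d20 (
    Reidemeister.r3 true ⟨25, 0, 1, false⟩ ⟨10, 0, 1, false⟩ ⟨23, 1, 1, false⟩ rfl rfl rfl
      ((⟨10, 0, 1, false⟩, true), (⟨25, 0, 1, false⟩, true))
      ((⟨23, 1, 1, false⟩, false), (⟨10, 0, 1, false⟩, false))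
      ((⟨23, 1, 1, false⟩, true), (⟨25, 0, 1, false⟩, false))
      (by decide)
      [(⟨0, 0, 1, true⟩, true)]
      [(⟨24, 0, 1, true⟩, true), (⟨14, 1, 0, false⟩, false), (⟨20, 1, 0, true⟩, false), (⟨4, 1, 0, false⟩, false), (⟨5, 0, 1, false⟩, true), (⟨6, 1, 0, true⟩, false), (⟨7, 0, 1, true⟩, true)]
      [(⟨14, 1, 0, false⟩, true), (⟨22, 1, 1, false⟩, true), (⟨0, 0, 1, true⟩, false)]
      [(⟨24, 0, 1, true⟩, false), (⟨22, 1, 1, false⟩, false), (⟨20, 1, 0, true⟩, true), (⟨4, 1, 0, false⟩, true), (⟨5, 0, 1, false⟩, false), (⟨6, 1, 0, true⟩, true), (⟨7, 0, 1, true⟩, false)])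

theorem e20 : (Quot.mk _ d20 : VSLsc 2) = Quot.mk _ d21 :=
  stepR d20 d21 (
    Reidemeister.r2_parallel ⟨0, 0, 1, true⟩ ⟨25, 0, 1, false⟩ rfl rfl (by decide) true
      []
      [(⟨10, 0, 1, false⟩, true), (⟨24, 0, 1, true⟩, true), (⟨14, 1, 0, false⟩, false), (⟨20, 1, 0, true⟩, false), (⟨4, 1, 0, false⟩, false), (⟨5, 0, 1, false⟩, true), (⟨6, 1, 0, true⟩, false), (⟨7, 0, 1, true⟩, true), (⟨10, 0, 1, false⟩, false), (⟨23, 1, 1, false⟩, false), (⟨14, 1, 0, false⟩, true), (⟨22, 1, 1, false⟩, true)]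
      [(⟨23, 1, 1, false⟩, true), (⟨24, 0, 1, true⟩, false), (⟨22, 1, 1, false⟩, false), (⟨20, 1, 0, true⟩, true), (⟨4, 1, 0, false⟩, true), (⟨5, 0, 1, false⟩, false), (⟨6, 1, 0, true⟩, true), (⟨7, 0, 1, true⟩, false)])

theorem e21 : (Quot.mk _ d21 : VSLsc 2) = Quot.mk _ d22 :=
  stepR d21 d22 (
    Reidemeister.r3 true ⟨14, 1, 0, false⟩ ⟨22, 1, 1, false⟩ ⟨24, 0, 1, true⟩ rfl rfl rfl
      ((⟨24, 0, 1, true⟩, true), (⟨14, 1, 0, false⟩, false))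
      ((⟨14, 1, 0, false⟩, true), (⟨22, 1, 1, false⟩, true))
      ((⟨24, 0, 1, true⟩, false), (⟨22, 1, 1, false⟩, false))
      (by decide)
      [(⟨10, 0, 1, false⟩, true)]
      [(⟨20, 1, 0, true⟩, false), (⟨4, 1, 0, false⟩, false), (⟨5, 0, 1, false⟩, true), (⟨6, 1, 0, true⟩, false), (⟨7, 0, 1, true⟩, true), (⟨10, 0, 1, false⟩, false), (⟨23, 1, 1, false⟩, false)]
      [(⟨23, 1, 1, false⟩, true)]
      [(⟨20, 1, 0, true⟩, true), (⟨4, 1, 0, false⟩, true), (⟨5, 0, 1, false⟩, false), (⟨6, 1, 0, true⟩, true), (⟨7, 0, 1, true⟩, false)])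

theorem e22 : (Quot.mk _ d22 : VSLsc 2) = Quot.mk _ d23 :=
  stepS d22 d23 (
    SelfCrossingChange.mk ⟨23, 1, 1, false⟩ rfl false
      [(⟨10, 0, 1, false⟩, true), (⟨14, 1, 0, false⟩, false), (⟨24, 0, 1, true⟩, true), (⟨20, 1, 0, true⟩, false), (⟨4, 1, 0, false⟩, false), (⟨5, 0, 1, false⟩, true), (⟨6, 1, 0, true⟩, false), (⟨7, 0, 1, true⟩, true), (⟨10, 0, 1, false⟩, false)]
      [(⟨22, 1, 1, false⟩, true), (⟨14, 1, 0, false⟩, true)]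
      [(⟨22, 1, 1, false⟩, false), (⟨24, 0, 1, true⟩, false), (⟨20, 1, 0, true⟩, true), (⟨4, 1, 0, false⟩, true), (⟨5, 0, 1, false⟩, false), (⟨6, 1, 0, true⟩, true), (⟨7, 0, 1, true⟩, false)])

theorem e23 : (Quot.mk _ d23 : VSLsc 2) = Quot.mk _ d24 :=
  stepR d23 d24 (
    Reidemeister.r2_parallel ⟨23, 1, 1, true⟩ ⟨22, 1, 1, false⟩ rfl rfl (by decide) true
      [(⟨10, 0, 1, false⟩, true), (⟨14, 1, 0, false⟩, false), (⟨24, 0, 1, true⟩, true), (⟨20, 1, 0, true⟩, false), (⟨4, 1, 0, false⟩, false), (⟨5, 0, 1, false⟩, true), (⟨6, 1, 0, true⟩, false), (⟨7, 0, 1, true⟩, true), (⟨10, 0, 1, false⟩, false)]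
      [(⟨14, 1, 0, false⟩, true)]
      [(⟨24, 0, 1, true⟩, false), (⟨20, 1, 0, true⟩, true), (⟨4, 1, 0, false⟩, true), (⟨5, 0, 1, false⟩, false), (⟨6, 1, 0, true⟩, true), (⟨7, 0, 1, true⟩, false)])

theorem e24 : (Quot.mk _ d24 : VSLsc 2) = Quot.mk _ d25 :=
  stepR d24 d25 (
    Reidemeister.r2_parallel ⟨20, 1, 0, true⟩ ⟨4, 1, 0, false⟩ rfl rfl (by decide) false
      [(⟨10, 0, 1, false⟩, true), (⟨14, 1, 0, false⟩, false), (⟨24, 0, 1, true⟩, true)]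
      [(⟨5, 0, 1, false⟩, true), (⟨6, 1, 0, true⟩, false), (⟨7, 0, 1, true⟩, true), (⟨10, 0, 1, false⟩, false), (⟨14, 1, 0, false⟩, true), (⟨24, 0, 1, true⟩, false)]
      [(⟨5, 0, 1, false⟩, false), (⟨6, 1, 0, true⟩, true), (⟨7, 0, 1, true⟩, false)])

theorem e25 : (Quot.mk _ d25 : VSLsc 2) = Quot.mk _ d26 :=
  stepR d25 d26 (
    Reidemeister.r2_parallel ⟨24, 0, 1, true⟩ ⟨5, 0, 1, false⟩ rfl rfl (by decide) true
      [(⟨10, 0, 1, false⟩, true), (⟨14, 1, 0, false⟩, false)]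
      [(⟨6, 1, 0, true⟩, false), (⟨7, 0, 1, true⟩, true), (⟨10, 0, 1, false⟩, false), (⟨14, 1, 0, false⟩, true)]
      [(⟨6, 1, 0, true⟩, true), (⟨7, 0, 1, true⟩, false)])

theorem e26 : (Quot.mk _ d26 : VSLsc 2) = Quot.mk _ d27 :=
  stepR d26 d27 (
    Reidemeister.r2_parallel ⟨14, 1, 0, false⟩ ⟨6, 1, 0, true⟩ rfl rfl (by decide) false
      [(⟨10, 0, 1, false⟩, true)]
      [(⟨7, 0, 1, true⟩, true), (⟨10, 0, 1, false⟩, false)]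
      [(⟨7, 0, 1, true⟩, false)])

theorem e27 : (Quot.mk _ d27 : VSLsc 2) = Quot.mk _ d28 :=
  stepR d27 d28 (
    Reidemeister.r2_parallel ⟨10, 0, 1, false⟩ ⟨7, 0, 1, true⟩ rfl rfl (by decide) true
      []
      []
      [])

theorem chain : (Quot.mk _ d0 : VSLsc 2) = Quot.mk _ d28 := by
  rw [e0, e1, e2, e3, e4, e5, e6, e7, e8, e9, e10, e11, e12, e13, e14, e15, e16, e17, e18, e19, e20, e21, e22, e23, e24, e25, e26, e27]

end Pool.Agent.Q125.SC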