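import Pool.Agent.Q125.SC2

/-!
# The braid `A B A⁻¹ B⁻¹ B⁻¹ A⁻¹ B A`
-/

set_option autoImplicit false

namespace Pool.Agent.Q125.SC

open Pool.Agent.W612.WSL

theorem l0_mono : IsMono l0 := by
  refine ⟨by unfold l0; decide, id, ?_⟩
  unfold l0
  decide

/-- The monotone diagram of `A B A⁻¹ B⁻¹ B⁻¹ A⁻¹ B A`. -/
def m0 : MonoDiagram 2 := ⟨l0, g0, l0_mono⟩

theorem inv_l0 : inv l0 ≠ 1 := by
  intro h
  have h1 := congrArg FreeGroup.toWord h
  unfold inv at h1
  rw [FreeGroup.toWord_mk, FreeGroup.toWord_one] at h1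
  revert h1
  unfold letters l0
  decide

theorem inv_nil : inv [] = 1 := rfl

theorem m0_ne_vp : (Quot.mk _ m0 : VP 2) ≠ oneVP 2 := by
  intro h
  exact inv_l0 (congrArg invVP h)

theorem m0_ne_wp : (Quot.mk _ m0 : WP 2) ≠ oneWP 2 := by
  intro h
  exact inv_l0 (congrArg invWP h)

theorem piV_m0 : piV 2 (Quot.mk _ m0) = oneVSL 2 := chain

/-- Welded string links up to self-crossing changes are a quotient of the virtual ones. -/
def toWelded (n : ℕ) : VSLsc n → WSLsc n :=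
  Quot.map id fun _ _ h => h.elim Or.inl fun h => Or.inr (Or.inr h)

theorem piW_m0 : piW 2 (Quot.mk _ m0) = oneWSL 2 := congrArg (toWelded 2) chain

end Pool.Agent.Q125.SC
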